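import Pool.Agent.Q27.GS.Wave

/-!
# Slowly varying functions on a locally compact group: the construction
-/

namespace Pool.Agent.Q27.GS

open Topology Set Filter

theorem exists_sqrt {e : ℝ} (he : 0 < e) : ∃ N : ℕ, ∀ n ≥ N, 1 / (n.sqrt : ℝ) ≤ e := by
  obtain ⟨s, hs⟩ := exists_nat_one_div_lt he
  refine ⟨(s + 1) * (s + 1), fun n hn => ?_⟩
  have h1 : s + 1 ≤ n.sqrt := Nat.le_sqrt.mpr hn
  have h2 : ((s : ℝ) + 1) ≤ n.sqrt := by exact_mod_cast h1
  exact (one_div_le_one_div_of_le (by positivity) h2).trans hs.le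

theorem sqrt_succ_cases (n : ℕ) : (n + 1).sqrt = n.sqrt ∨ ∃ s, n + 1 = s * s := by
  have h1 := Nat.sqrt_succ_le_succ_sqrt n
  have h2 : n.sqrt ≤ (n + 1).sqrt := Nat.sqrt_le_sqrt (Nat.le_succ n)
  rcases Nat.lt_or_ge n.sqrt (n + 1).sqrt with h | h
  · refine Or.inr ⟨n.sqrt + 1, ?_⟩
    have h3 : (n + 1).sqrt = n.sqrt + 1 := by
      have : Nat.sqrt (n + 1) ≤ n.sqrt + 1 := h1
      omega
    have h4 := Nat.sqrt_le (n + 1)
    have h5 := Nat.lt_succ_sqrt n
    rw [h3] at h4
    have h6 : n < (n.sqrt + 1) * (n.sqrt + 1) := h5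
    omega
  · exact Or.inl (le_antisymm h h2)

variable (G : Type) [Group G] [TopologicalSpace G] [IsTopologicalGroup G]
  [LocallyCompactSpace G] [T2Space G] [SecondCountableTopology G] [NoncompactSpace G]

theorem exists_wave {X : Type} [MulAction G X] (x : ℕ → X) (t : ℕ → ℝ)
    (ht : ∀ k, 0 ≤ t k ∧ t k ≤ 1) :
    ∃ (T : G → ℝ) (a : G → X), Continuous T ∧ (∀ g, 0 ≤ T g ∧ T g ≤ 1) ∧
      (∀ g0, 0 < T g0 → ∀ᶠ g in 𝓝 g0, a g = a g0) ∧
      (∀ C : Set G, IsCompact C → ∀ e > 0, ∃ D : Set G, IsCompact D ∧ ∀ h ∈ C, ∀ g, g ∉ D →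
        |T (h * g) - T g| ≤ e ∧ (T g = 0 ∨ T (h * g) = 0 ∨ a (h * g) = a g)) ∧
      (∀ D : Set G, IsCompact D → ∀ e > 0, ∃ k0 : ℕ, ∀ k ≥ k0, ∃ g, g ∉ D ∧ g • a g = x k ∧
        |T g - t k| ≤ e) := by
  classical
  obtain ⟨K, hKc, hKi, hKcov, hmul, hinv, hsh⟩ := exists_exh G
  have hmono : Monotone K := monotone_nat_of_le_succ fun n => (hKi n).trans interior_subset
  have hu : ∀ i, ∃ u : C(G, ℝ), (∀ g ∈ K i, u g = 0) ∧ (∀ g, g ∉ K (i + 1) → u g = 1) ∧
      ∀ g, 0 ≤ u g ∧ u g ≤ 1 := by
    intro i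
    obtain ⟨f, h0, h1, h2⟩ := exists_continuous_zero_one_of_isClosed (hKc i).isClosed
      (isOpen_interior (s := K (i + 1))).isClosed_compl
      (Set.disjoint_left.mpr fun g hg hg2 => hg2 (hKi i hg))
    exact ⟨f, fun g hg => h0 hg, fun g hg => h1 fun h => hg (interior_subset h),
      fun g => ⟨(h2 g).1, (h2 g).2⟩⟩
  choose u hu0 hu1 hub using hu
  let lev : G → ℕ := fun g => Nat.find (hKcov g)
  have lev_mem : ∀ g, g ∈ K (lev g) := fun g => Nat.find_spec (hKcov g)
  have lev_le : ∀ g n, g ∈ K n → lev g ≤ n := fun g n h => Nat.find_le h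
  have lev_not : ∀ g n, n < lev g → g ∉ K n := fun g n h => Nat.find_min (hKcov g) h
  let A := wv t
  have hA0 : A 0 = 0 := wv_zero t 0
  let al : ℕ → ℝ := fun i => A (i + 1) - A i
  let S : ℕ → G → ℝ := fun N g => ∑ i ∈ Finset.range N, al i * u i g
  let T : G → ℝ := fun g => S (lev g) g
  have hSc : ∀ N, Continuous (S N) := fun N =>
    continuous_finsetSum _ fun i _ => continuous_const.mul (u i).continuous
  have T_eq : ∀ g N, lev g ≤ N → T g = S N g := by
    intro g N h
    refine Finset.sum_subset (Finset.range_subset_range.mpr h) fun i _ hi => ?_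
    rw [Finset.mem_range, not_lt] at hi
    rw [hu0 i g (hmono hi (lev_mem g)), mul_zero]
  have T_form : ∀ g m, lev g = m + 1 → T g = A m + al m * u m g := by
    intro g m h
    change S (lev g) g = _
    rw [h]
    change ∑ i ∈ Finset.range (m + 1), al i * u i g = _
    rw [Finset.sum_range_succ]
    congr 1
    have h1 : ∑ i ∈ Finset.range m, al i * u i g = ∑ i ∈ Finset.range m, (A (i + 1) - A i) := by
      refine Finset.sum_congr rfl fun i hi => ?_
      rw [Finset.mem_range] at hi
      rw [hu1 i g (lev_not g _ (by omega)), mul_one]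
    rw [h1, Finset.sum_range_sub, hA0, sub_zero]
  have T_zero : ∀ g, lev g = 0 → T g = 0 := by
    intro g h
    change S (lev g) g = 0
    rw [h]
    rfl
  have hTb : ∀ g, 0 ≤ T g ∧ T g ≤ 1 := by
    intro g
    rcases Nat.eq_zero_or_pos (lev g) with h | h
    · rw [T_zero g h]; exact ⟨le_rfl, zero_le_one⟩
    · obtain ⟨m, hm⟩ : ∃ m, lev g = m + 1 := ⟨lev g - 1, by omega⟩
      have h1 : T g = (1 - u m g) * A m + u m g * A (m + 1) := by
        rw [T_form g m hm]; simp only [al]; ring
      obtain ⟨hu0', hu1'⟩ := hub m g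
      obtain ⟨ha0, ha1⟩ := wv_bound ht m
      obtain ⟨hb0, hb1⟩ := wv_bound ht (m + 1)
      rw [h1]
      constructor
      · exact add_nonneg (mul_nonneg (by linarith) ha0) (mul_nonneg hu0' hb0)
      · nlinarith [mul_le_mul_of_nonneg_left ha1 (show 0 ≤ 1 - u m g by linarith),
          mul_le_mul_of_nonneg_left hb1 hu0']
  have hTA : ∀ g m, lev g = m + 1 → |T g - A (m + 1)| ≤ 1 / (m.sqrt : ℝ) := by
    intro g m hm
    have h1 : T g - A (m + 1) = al m * (u m g - 1) := by
      rw [T_form g m hm]; simp only [al]; ring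
    rw [h1, abs_mul]
    have h2 : |al m| ≤ 1 / (m.sqrt : ℝ) := wv_step ht m
    have h3 : |u m g - 1| ≤ 1 := by
      rw [abs_le]; constructor <;> linarith [(hub m g).1, (hub m g).2]
    calc |al m| * |u m g - 1| ≤ |al m| * 1 := mul_le_mul_of_nonneg_left h3 (abs_nonneg _)
      _ = |al m| := mul_one _
      _ ≤ _ := h2
  have hTsq : ∀ g s, lev g = s * s → T g = 0 := by
    intro g s hs
    rcases Nat.eq_zero_or_pos s with h | h
    · exact T_zero g (by rw [hs, h])
    · obtain ⟨k, rfl⟩ : ∃ k, s = k + 1 := ⟨s - 1, by omega⟩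
      have h1 : lev g = (k * k + 2 * k) + 1 := by rw [hs]; ring
      have h2 : A (k * k + 2 * k) = 0 := wv_last t k
      have h3 : A (k * k + 2 * k + 1) = 0 := by
        have : k * k + 2 * k + 1 = (k + 1) * (k + 1) := by ring
        rw [this]; exact wv_zero t (k + 1)
      rw [T_form g _ h1]
      simp only [al]
      rw [h2, h3]; ring
  have hblock : ∀ g g', T g ≠ 0 → T g' ≠ 0 → lev g' = lev g ∨ lev g' = lev g + 1 ∨
      lev g = lev g' + 1 → (lev g).sqrt = (lev g').sqrt := by
    intro g g' h h' hc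
    rcases hc with hc | hc | hc
    · rw [hc]
    · rcases sqrt_succ_cases (lev g) with h1 | ⟨s, hs⟩
      · rw [hc, h1]
      · exact absurd (hTsq g' s (hc.trans hs)) h'
    · rcases sqrt_succ_cases (lev g') with h1 | ⟨s, hs⟩
      · rw [hc, h1]
      · exact absurd (hTsq g s (hc.trans hs)) h
  have hgk : ∀ k : ℕ, ∃ g : G, 0 < k → lev g = k * k + k := by
    intro k
    obtain ⟨g, hg1, hg2⟩ := hsh (k * k + k - 1)
    refine ⟨g, fun hk => ?_⟩
    have h1 : k * k + k - 1 + 1 = k * k + k := by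
      have : 0 < k * k + k := by positivity
      omega
    rw [h1] at hg1
    refine le_antisymm (lev_le g _ hg1) ?_
    by_contra h
    exact hg2 (hmono (by omega) (lev_mem g))
  choose gk hgk using hgk
  let a : G → X := fun g => (gk (lev g).sqrt)⁻¹ • x (lev g).sqrt
  have ha : ∀ g g', (lev g).sqrt = (lev g').sqrt → a g = a g' := fun g g' h => by
    simp only [a]; rw [h]
  have hcpt : ∀ C : Set G, IsCompact C → ∃ j, C ⊆ K j := by
    intro C hC
    obtain ⟨j, hj⟩ := hC.elim_directed_cover (fun n => interior (K n)) (fun n => isOpen_interior)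
      (fun g _ => by
        obtain ⟨n, hn⟩ := hKcov g
        exact mem_iUnion.mpr ⟨n + 1, hKi n hn⟩)
      (Monotone.directed_le fun m n h => interior_mono (hmono h))
    exact ⟨j, hj.trans interior_subset⟩
  have hTc : Continuous T := by
    rw [continuous_iff_continuousAt]
    intro g0
    have h1 : S (lev g0 + 1) =ᶠ[𝓝 g0] T := by
      have h2 : interior (K (lev g0 + 1)) ∈ 𝓝 g0 :=
        isOpen_interior.mem_nhds (hKi _ (lev_mem g0))
      filter_upwards [h2] with g hg
      exact (T_eq g _ (lev_le g _ (interior_subset hg))).symm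
    exact (hSc _).continuousAt.congr h1
  refine ⟨T, a, hTc, hTb, fun g0 hg0 => ?_, fun C hC e he => ?_, fun D hD e he => ?_⟩
  · have h2 : interior (K (lev g0 + 1)) ∈ 𝓝 g0 := isOpen_interior.mem_nhds (hKi _ (lev_mem g0))
    have h3 : ∀ᶠ g in 𝓝 g0, 0 < T g := hTc.continuousAt.eventually (lt_mem_nhds hg0)
    have h4 : ∀ᶠ g in 𝓝 g0, lev g0 ≤ lev g := by
      rcases Nat.eq_zero_or_pos (lev g0) with h | h
      · exact Filter.Eventually.of_forall fun g => by omega
      · have h5 : (K (lev g0 - 1))ᶜ ∈ 𝓝 g0 :=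
          (hKc _).isClosed.isOpen_compl.mem_nhds (lev_not g0 _ (by omega))
        filter_upwards [h5] with g hg
        by_contra h6
        exact hg (hmono (by omega) (lev_mem g))
    filter_upwards [h2, h3, h4] with g hg hg3 hg4
    refine (ha g0 g (hblock g0 g hg0.ne' hg3.ne' ?_)).symm
    have := lev_le g _ (interior_subset hg)
    omega
  · obtain ⟨j, hj⟩ := hcpt C hC
    obtain ⟨N, hN⟩ := exists_sqrt (show 0 < e / 3 by positivity)
    refine ⟨K (j + N + 3), hKc _, fun h hh g hg => ?_⟩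
    have hn : j + N + 3 < lev g := by
      by_contra hc
      exact hg (hmono (by omega) (lev_mem g))
    have h1 : lev (h * g) ≤ lev g + 1 :=
      lev_le _ _ (hmul _ h (hmono (by omega) (hj hh)) g (lev_mem g))
    have h2 : lev g ≤ lev (h * g) + 1 := by
      rcases Nat.lt_or_ge (lev (h * g)) j with hlt | hge
      · exfalso
        have h3 : g ∈ K (j + 1) := by
          have := hmul j h⁻¹ (hinv j h (hj hh)) (h * g) (hmono hlt.le (lev_mem _))
          simpa using this
        have := lev_le g _ h3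
        omega
      · have := hmul _ h⁻¹ (hinv _ h (hmono hge (hj hh))) (h * g) (lev_mem _)
        rw [inv_mul_cancel_left] at this
        exact lev_le g _ this
    constructor
    · obtain ⟨m, hm⟩ : ∃ m, lev g = m + 1 := ⟨lev g - 1, by omega⟩
      obtain ⟨m', hm'⟩ : ∃ m', lev (h * g) = m' + 1 := ⟨lev (h * g) - 1, by omega⟩
      have b1 := (hTA g m hm).trans (hN m (by omega))
      have b2 := (hTA (h * g) m' hm').trans (hN m' (by omega))
      have b3 : |A (m' + 1) - A (m + 1)| ≤ e / 3 := by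
        have hc : m' = m ∨ m' = m + 1 ∨ m = m' + 1 := by omega
        rcases hc with hc | hc | hc
        · rw [hc, sub_self, abs_zero]; positivity
        · subst hc
          exact (wv_step ht (m + 1)).trans (hN _ (by omega))
        · subst hc
          rw [abs_sub_comm]
          exact (wv_step ht (m' + 1)).trans (hN _ (by omega))
      rw [abs_le] at b1 b2 b3 ⊢
      constructor <;> linarith [b1.1, b1.2, b2.1, b2.2, b3.1, b3.2]
    · by_cases hz : T g = 0
      · exact Or.inl hz
      by_cases hz' : T (h * g) = 0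
      · exact Or.inr (Or.inl hz')
      refine Or.inr (Or.inr (ha g (h * g) (hblock g (h * g) hz hz' ?_)).symm)
      omega
  · obtain ⟨j, hj⟩ := hcpt D hD
    obtain ⟨N, hN⟩ := exists_sqrt he
    refine ⟨j + N + 2, fun k hk => ⟨gk k, ?_, ?_, ?_⟩⟩
    · intro hg
      have h1 := lev_le _ _ (hj hg)
      rw [hgk k (by omega)] at h1
      nlinarith
    · have h1 : (lev (gk k)).sqrt = k := by
        rw [hgk k (by omega)]; exact Nat.sqrt_add_eq k (by omega)
      simp only [a]
      rw [h1, smul_inv_smul]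
    · have h1 := hgk k (by omega)
      have h2 : k * k + k = (k * k + k - 1) + 1 := by
        have : 0 < k * k + k := by nlinarith
        omega
      have h3 := hTA (gk k) (k * k + k - 1) (h1.trans h2)
      rw [← h2] at h3
      have h4 : A (k * k + k) = t k := wv_top t k (by omega)
      rw [h4] at h3
      refine h3.trans (hN _ ?_)
      have : k ≤ k * k := Nat.le_mul_self k
      omega

end Pool.Agent.Q27.GS
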