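import Pool.Agent.Q27.GS.Main
import Pool.Agent.Q27.GS.Slow

/-!
# Compactifications of a locally compact group

Data: an equivariant embedding `γ` of `G` in `U G` tending to the fixed point `U0` at infinity, a
compact metrizable `G`-space `Z` and a continuous map `c : G → Z` which is asymptotically
equivariant and whose set of limit points is `Z`.  Then `G ⊔ Z` with the topology induced by
`g ↦ (γ g, c g)`, `z ↦ (U0, z)` is a compact metrizable `G`-space in which `G` is open and dense.
-/

namespace Pool.Agent.Q27.GS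

open Topology Set Filter

/-- `G ⊔ Z`. -/
inductive Cpt (G Z : Type) : Type
  | orb (g : G) : Cpt G Z
  | rem (z : Z) : Cpt G Z

variable {G : Type} [Group G] [TopologicalSpace G] [IsTopologicalGroup G]
  [LocallyCompactSpace G] [T2Space G] [SecondCountableTopology G]

theorem exists_compactification (γ : G → U G) (hγ : IsEmbedding γ)
    (hγe : ∀ h g : G, γ (h * g) = h • γ g) (hγ0 : ∀ g, γ g ≠ U0)
    (hγc : IsClosed (insert U0 (range γ))) (hγt : Tendsto γ (coclosedCompact G) (𝓝 U0))
    (Z : GSp G) [CompactSpace Z.X] (c : G → Z.X) (hc : Continuous c)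
    (d : Z.X → Z.X → ℝ) (hself : ∀ z, d z z = 0) (htri : ∀ x y z, d x z ≤ d x y + d y z)
    (hnhds : ∀ (z0 : Z.X) (W : Set Z.X), W ∈ 𝓝 z0 ↔ ∃ e > 0, ∀ z, d z z0 < e → z ∈ W)
    (hae : ∀ h0 : G, ∀ e > 0, ∃ N ∈ 𝓝 h0, ∃ D : Set G, IsCompact D ∧
      ∀ h ∈ N, ∀ g, g ∉ D → d (c (h * g)) (h • c g) < e)
    (hde : ∀ z : Z.X, ∀ W ∈ 𝓝 z, ∀ D : Set G, IsCompact D → ∃ g, g ∉ D ∧ c g ∈ W) :
    ∃ K : GSp G, CompactSpace K.X ∧ ∃ (orb : G → K.X) (rem : Z.X → K.X),
      IsOpenEmbedding orb ∧ DenseRange orb ∧ (∀ h g : G, orb (h * g) = h • orb g) ∧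
      IsClosedEmbedding rem ∧ (∀ (h : G) z, rem (h • z) = h • rem z) ∧
      range orb = (range rem)ᶜ := by
  classical
  let ι : Cpt G Z.X → U G × Z.X := fun x => match x with
    | .orb g => (γ g, c g)
    | .rem z => (U0, z)
  have hιi : Function.Injective ι := by
    rintro (g | z) (g' | z') h
    · rw [hγ.injective (congrArg Prod.fst h)]
    · exact absurd (congrArg Prod.fst h) (hγ0 g)
    · exact absurd (congrArg Prod.fst h).symm (hγ0 g')
    · have h2 : z = z' := congrArg Prod.snd h
      rw [h2]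
  let top : TopologicalSpace (Cpt G Z.X) := TopologicalSpace.induced ι inferInstance
  have hι : IsEmbedding ι := ⟨⟨rfl⟩, hιi⟩
  have hcl : IsClosed (range ι) := by
    rw [isClosed_iff_ultrafilter]
    intro p u hu hru
    have hrange : range ι = range (fun g => (γ g, c g)) ∪ {p | p.1 = U0} := by
      ext q
      constructor
      · rintro ⟨g | z, rfl⟩
        · exact Or.inl ⟨g, rfl⟩
        · exact Or.inr rfl
      · rintro (⟨g, rfl⟩ | hq)
        · exact ⟨.orb g, rfl⟩
        · exact ⟨.rem q.2, Prod.ext hq.symm rfl⟩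
    have hfst : Tendsto Prod.fst (u : Filter (U G × Z.X)) (𝓝 p.1) :=
      (continuous_fst.tendsto p).mono_left hu
    have hsnd : Tendsto Prod.snd (u : Filter (U G × Z.X)) (𝓝 p.2) :=
      (continuous_snd.tendsto p).mono_left hu
    rw [hrange, Ultrafilter.union_mem_iff] at hru
    rw [hrange]
    rcases hru with hru | hru
    · have h1 : p.1 ∈ insert U0 (range γ) := by
        have hcl2 : IsClosed (Prod.fst ⁻¹' (insert U0 (range γ)) : Set (U G × Z.X)) :=
          hγc.preimage continuous_fst
        refine isClosed_iff_ultrafilter.mp hcl2 p u hu ?_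
        refine Filter.mem_of_superset hru ?_
        rintro _ ⟨g, rfl⟩
        exact Or.inr ⟨g, rfl⟩
      rcases h1 with h1 | ⟨g0, hg0⟩
      · exact Or.inr h1
      · left
        let κ : G → U G × Z.X := fun g => (γ g, c g)
        let v : Filter G := Filter.comap κ (u : Filter (U G × Z.X))
        have hv : Filter.map κ v = u := Filter.map_comap_of_mem hru
        have hvn : v.NeBot := by
          rw [← Filter.map_neBot_iff κ, hv]
          infer_instance
        have hκ : Tendsto κ v u := by
          rw [Tendsto, hv]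
        have h2 : Tendsto γ v (𝓝 (γ g0)) := by
          rw [hg0]
          exact hfst.comp hκ
        have h3 : Tendsto id v (𝓝 g0) := by
          rw [hγ.isInducing.tendsto_nhds_iff]
          exact h2
        have h4 : Tendsto c v (𝓝 (c g0)) := (hc.tendsto g0).comp h3
        have h5 : Tendsto c v (𝓝 p.2) := hsnd.comp hκ
        exact ⟨g0, Prod.ext hg0 (tendsto_nhds_unique h4 h5)⟩
    · right
      have hcl2 : IsClosed {p : U G × Z.X | p.1 = U0} :=
        isClosed_eq continuous_fst continuous_const
      exact isClosed_iff_ultrafilter.mp hcl2 p u hu hru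
  have hιc : IsClosedEmbedding ι := ⟨hι, hcl⟩
  let act : MulAction G (Cpt G Z.X) :=
    { smul := fun h x => match x with
        | .orb g => .orb (h * g)
        | .rem z => .rem (h • z)
      one_smul := by
        rintro (g | z)
        · exact congrArg Cpt.orb (one_mul g)
        · exact congrArg Cpt.rem (one_smul G z)
      mul_smul := by
        rintro a b (g | z)
        · exact congrArg Cpt.orb (mul_assoc a b g)
        · exact congrArg Cpt.rem (mul_smul a b z) }
  have hcι : Continuous ι := hι.continuous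
  have horbc : Continuous (Cpt.orb : G → Cpt G Z.X) :=
    continuous_induced_rng.mpr (hγ.continuous.prodMk hc)
  have hremc : Continuous (Cpt.rem : Z.X → Cpt G Z.X) :=
    continuous_induced_rng.mpr (continuous_const.prodMk continuous_id)
  have hrr : range (Cpt.rem : Z.X → Cpt G Z.X) = {x | (ι x).1 = U0} := by
    ext x
    constructor
    · rintro ⟨z, rfl⟩; rfl
    · rcases x with g | z
      · exact fun h => absurd h (hγ0 g)
      · exact fun _ => ⟨z, rfl⟩
  have hro : range (Cpt.orb : G → Cpt G Z.X) = (range (Cpt.rem : Z.X → Cpt G Z.X))ᶜ := by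
    ext x
    rcases x with g | z
    · simp
    · simp
  have hremcl : IsClosed (range (Cpt.rem : Z.X → Cpt G Z.X)) := by
    rw [hrr]
    exact isClosed_eq (continuous_fst.comp hcι) continuous_const
  have horb : IsOpenEmbedding (Cpt.orb : G → Cpt G Z.X) := by
    refine ⟨IsEmbedding.of_comp horbc (g := fun x => (ι x).1) (continuous_fst.comp hcι) hγ, ?_⟩
    rw [hro]
    exact hremcl.isOpen_compl
  have hrem : IsClosedEmbedding (Cpt.rem : Z.X → Cpt G Z.X) :=
    ⟨IsEmbedding.of_comp hremc (g := fun x => (ι x).2) (continuous_snd.comp hcι) .id, hremcl⟩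
  let s : G × Cpt G Z.X → Z.X := fun p => (ι (p.1 • p.2)).2
  have hs : Continuous s := by
    rw [continuous_iff_continuousAt]
    rintro ⟨h0, g0 | z0⟩
    · have ho : IsOpenEmbedding (Prod.map id Cpt.orb : G × G → G × Cpt G Z.X) :=
        IsOpenEmbedding.id.prodMap horb
      have h1 : ContinuousAt (s ∘ (Prod.map id Cpt.orb : G × G → G × Cpt G Z.X)) (h0, g0) := by
        have : Continuous fun p : G × G => c (p.1 * p.2) := hc.comp continuous_mul
        exact this.continuousAt
      exact (ho.continuousAt_iff (x := (h0, g0))).mp h1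
    · let s' : G × Cpt G Z.X → Z.X := fun p => p.1 • (ι p.2).2
      have hs' : Continuous s' :=
        continuous_fst.smul ((continuous_snd.comp hcι).comp continuous_snd)
      intro W hW
      obtain ⟨e, he, hWe⟩ := (hnhds _ W).mp hW
      have h1 : ∀ᶠ p in 𝓝 (h0, (Cpt.rem z0 : Cpt G Z.X)), d (s' p) (h0 • z0) < e / 2 := by
        have h2 : {z | d z (h0 • z0) < e / 2} ∈ 𝓝 (h0 • z0) :=
          (hnhds _ _).mpr ⟨e / 2, by positivity, fun z hz => hz⟩
        exact (hs'.tendsto (h0, (Cpt.rem z0 : Cpt G Z.X))) h2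
      obtain ⟨N, hN, D, hD, hND⟩ := hae h0 (e / 2) (by positivity)
      have h2 : N ×ˢ ((Cpt.orb '' D)ᶜ : Set (Cpt G Z.X)) ∈ 𝓝 (h0, (Cpt.rem z0 : Cpt G Z.X)) := by
        have : T2Space (Cpt G Z.X) := hι.t2Space
        refine prod_mem_nhds hN ((hD.image horbc).isClosed.isOpen_compl.mem_nhds ?_)
        rintro ⟨g, -, hg⟩
        cases hg
      change ∀ᶠ p in 𝓝 (h0, (Cpt.rem z0 : Cpt G Z.X)), s p ∈ W
      filter_upwards [h1, h2] with p hp1 hp2
      refine hWe _ ?_
      have h3 : d (s p) (s' p) < e / 2 := by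
        obtain ⟨h, x⟩ := p
        rcases x with g | z
        · exact hND h hp2.1 g fun hg => hp2.2 ⟨g, hg, rfl⟩
        · change d (h • z) (h • z) < e / 2
          rw [hself]; positivity
      have h4 := htri (s p) (s' p) (h0 • z0)
      have h5 : d (s p) (h0 • z0) < e := by linarith
      exact h5
  have hcont : ContinuousSMul G (Cpt G Z.X) := by
    refine ⟨continuous_induced_rng.mpr ?_⟩
    have h1 : (ι ∘ fun p : G × Cpt G Z.X => p.1 • p.2) = fun p => (p.1 • (ι p.2).1, s p) := by
      funext p
      obtain ⟨h, x⟩ := p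
      rcases x with g | z
      · exact Prod.ext (hγe h g) rfl
      · exact Prod.ext (smul_U0 h).symm rfl
    rw [h1]
    exact (continuous_fst.smul ((continuous_fst.comp hcι).comp continuous_snd)).prodMk hs
  have hcs : CompactSpace (Cpt G Z.X) := hιc.compactSpace
  have ht2 : T2Space (Cpt G Z.X) := hι.t2Space
  let K : GSp G :=
    { X := Cpt G Z.X
      top := top
      act := act
      cont := hcont
      lc := inferInstance
      t2 := ht2
      sc := hι.secondCountableTopology }
  refine ⟨K, hcs, Cpt.orb, Cpt.rem, horb, ?_, fun h g => rfl, hrem, fun h z => rfl, hro⟩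
  intro x
  rcases x with g | z
  · exact subset_closure ⟨g, rfl⟩
  · rw [mem_closure_iff_nhds]
    intro V hV
    have hV' : V ∈ Filter.comap ι (𝓝 (U0, z)) := by
      have : 𝓝 (Cpt.rem z : Cpt G Z.X) = Filter.comap ι (𝓝 (ι (.rem z))) := nhds_induced _ _
      rw [← this]; exact hV
    obtain ⟨V1, hV1, hV2⟩ := hV'
    obtain ⟨W1, hW1, W2, hW2, hW⟩ := mem_nhds_prod_iff.mp hV1
    have hD := Filter.mem_coclosedCompact_iff.mp (hγt hW1)
    obtain ⟨g, hg, hcg⟩ := hde z W2 hW2 _ hD
    have hgW : γ g ∈ W1 := by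
      by_contra h
      exact hg (subset_closure h)
    exact ⟨.orb g, hV2 (hW ⟨hgW, hcg⟩), g, rfl⟩

end Pool.Agent.Q27.GS
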