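import Pool.Agent.Q27.GS.Fun

/-!
# Every locally compact second countable space with an action embeds in the space of functions

`sm w f x = inf_h min (1, f (h x) + w h)`.  The map `x ↦ (g ↦ sm (wt n) (F j) (g x))_(n, j)` is an
equivariant embedding of `X` in `U G`, which extends to the one point compactification.
-/

namespace Pool.Agent.Q27.GS

open Topology Set Filter
open scoped Pointwise

variable {G : Type} [Group G] [TopologicalSpace G] [IsTopologicalGroup G]
  [LocallyCompactSpace G] [T2Space G] [SecondCountableTopology G]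
  {X : Type} [TopologicalSpace X] [MulAction G X] [ContinuousSMul G X]

/-- One term of the infimum. -/
noncomputable def tm (n : ℕ) (f : X → ℝ) (x : X) (h : G) : ℝ := min 1 (f (h • x) + wt G n h)

/-- The infimum `inf_h min (1, f (h x) + w h)`. -/
noncomputable def sm (G : Type) [Group G] [TopologicalSpace G] [IsTopologicalGroup G]
    [LocallyCompactSpace G] [T2Space G] [SecondCountableTopology G]
    {X : Type} [TopologicalSpace X] [MulAction G X]
    (n : ℕ) (f : X → ℝ) (x : X) : ℝ := ⨅ h : G, tm n f x h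

section
variable {n : ℕ} {f : X → ℝ} (hf : ∀ x, 0 ≤ f x)
include hf

omit [ContinuousSMul G X] in
theorem tm_nonneg (x : X) (h : G) : 0 ≤ tm n f x h :=
  le_min zero_le_one (add_nonneg (hf _) (wt_nonneg G n h))

omit [ContinuousSMul G X] in
theorem sm_le_tm (x : X) (h : G) : sm G n f x ≤ tm n f x h :=
  ciInf_le ⟨0, by rintro _ ⟨h, rfl⟩; exact tm_nonneg hf x h⟩ h

omit [ContinuousSMul G X] in
theorem sm_nonneg (x : X) : 0 ≤ sm G n f x := le_ciInf fun h => tm_nonneg hf x h

omit [ContinuousSMul G X] in
theorem sm_le_one (x : X) : sm G n f x ≤ 1 := (sm_le_tm hf x 1).trans (min_le_left _ _)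

omit [ContinuousSMul G X] in
theorem sm_le (x : X) : sm G n f x ≤ f x := by
  refine (sm_le_tm hf x 1).trans ((min_le_right _ _).trans ?_)
  rw [one_smul, wt_one, add_zero]

omit [ContinuousSMul G X] in
theorem abs_sm_sub (y : X) (v : G) : |sm G n f (v • y) - sm G n f y| ≤ md G n v := by
  have key : ∀ (a b : ℝ) (c : ℝ), min 1 (c + a) ≤ min 1 (c + b) + |a - b| := by
    intro a b c
    have h1 := le_abs_self (a - b)
    have h2 := abs_nonneg (a - b)
    rcases le_total 1 (c + b) with h | h
    · rw [min_eq_left h]; exact (min_le_left _ _).trans (by linarith)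
    · rw [min_eq_right h]; exact (min_le_right _ _).trans (by linarith)
  rw [abs_sub_le_iff]
  constructor
  · have h1 : sm G n f (v • y) - md G n v ≤ sm G n f y := by
      refine le_ciInf fun k => ?_
      have h2 := sm_le_tm (n := n) hf (v • y) (k * v⁻¹)
      have h3 : tm n f (v • y) (k * v⁻¹) = min 1 (f (k • y) + wt G n (k * v⁻¹)) := by
        rw [tm, smul_smul, inv_mul_cancel_right]
      have h4 := key (wt G n (k * v⁻¹)) (wt G n k) (f (k • y))
      have h5 := le_md G n v (k * v⁻¹)
      rw [inv_mul_cancel_right, abs_sub_comm] at h5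
      rw [h3] at h2
      have h6 : tm n f y k = min 1 (f (k • y) + wt G n k) := rfl
      rw [h6]
      linarith
    linarith
  · have h1 : sm G n f y - md G n v ≤ sm G n f (v • y) := by
      refine le_ciInf fun h => ?_
      have h2 := sm_le_tm (n := n) hf y (h * v)
      have h3 : tm n f (v • y) h = min 1 (f ((h * v) • y) + wt G n h) := by
        rw [tm, smul_smul]
      have h4 := key (wt G n (h * v)) (wt G n h) (f ((h * v) • y))
      have h5 := le_md G n v h
      have h6 : tm n f y (h * v) = min 1 (f ((h * v) • y) + wt G n (h * v)) := rfl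
      rw [h6] at h2
      rw [h3]
      linarith
    linarith

theorem sm_cont (hc : Continuous f) : Continuous (sm G n f) := by
  obtain ⟨K, hK, h1K, hw⟩ := wt_compact G n
  have h1 : sm G n f = fun x => sInf ((fun h => tm n f x h) '' K) := by
    funext x
    have hb : BddBelow ((fun h => tm n f x h) '' K) :=
      ⟨0, by rintro _ ⟨h, -, rfl⟩; exact tm_nonneg hf x h⟩
    refine le_antisymm ?_ ?_
    · refine le_csInf ⟨_, 1, h1K, rfl⟩ ?_
      rintro _ ⟨h, -, rfl⟩
      exact sm_le_tm hf x h
    · refine le_ciInf fun h => ?_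
      by_cases hh : h ∈ K
      · exact csInf_le hb ⟨h, hh, rfl⟩
      · refine (csInf_le hb ⟨1, h1K, rfl⟩).trans ?_
        have : tm n f x h = 1 := by
          rw [tm, hw h hh]
          exact min_eq_left (by linarith [hf (h • x)])
        rw [this]
        exact min_le_left _ _
  rw [h1]
  refine IsCompact.continuous_sInf (f := fun x h => tm n f x h) hK ?_
  have h2 := wt_cont G n
  have h3 : Continuous fun p : X × G => min (1 : ℝ) (f (p.2 • p.1) + wt G n p.2) := by
    fun_prop
  exact h3

end

theorem sm_conv {f : X → ℝ} (hf : ∀ x, 0 ≤ f x) (hf1 : ∀ x, f x ≤ 1) (hc : Continuous f)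
    (x : X) {e : ℝ} (he : 0 < e) : ∃ n, f x - e ≤ sm G n f x := by
  have h1 : ∀ᶠ h : G in 𝓝 1, f x - e < f (h • x) := by
    have hcc : Continuous fun h : G => f (h • x) := by fun_prop
    have h0 : f x - e < f ((1 : G) • x) := by rw [one_smul]; linarith
    exact continuousAt_const.eventually_lt hcc.continuousAt h0
  obtain ⟨n, hn⟩ := wt_small G _ h1
  refine ⟨n, le_ciInf fun h => le_min (by linarith [hf1 x]) ?_⟩
  by_cases hh : f x - e < f (h • x)
  · linarith [wt_nonneg G n h]
  · rw [hn h hh]
    linarith [hf (h • x), hf1 x]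

/-- The map from `X` to the space of functions. -/
noncomputable def emb (F : ℕ → X → ℝ) (hF : ∀ j x, 0 ≤ F j x) (x : X) : U G :=
  ⟨fun i g => sm G i.1 (F i.2) (g • x), fun i g => ⟨⟨sm_nonneg (hF _) _, sm_le_one (hF _) _⟩,
    fun v => by
      change |sm G i.1 (F i.2) ((v * g) • x) - sm G i.1 (F i.2) (g • x)| ≤ _
      rw [mul_smul]
      exact abs_sm_sub (hF _) _ v⟩⟩

omit [ContinuousSMul G X] in
theorem emb_smul (F : ℕ → X → ℝ) (hF : ∀ j x, 0 ≤ F j x) (h : G) (x : X) :
    emb (G := G) F hF (h • x) = h • emb F hF x := by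
  refine Subtype.ext (funext fun i => funext fun g => ?_)
  change sm G i.1 (F i.2) (g • h • x) = sm G i.1 (F i.2) ((g * h) • x)
  rw [mul_smul]

theorem emb_cont (F : ℕ → X → ℝ) (hF : ∀ j x, 0 ≤ F j x) (hc : ∀ j, Continuous (F j)) :
    Continuous (emb (G := G) F hF) := by
  refine Continuous.subtype_mk (continuous_pi fun i => continuous_pi fun g => ?_) _
  exact (sm_cont (hF _) (hc _)).comp (continuous_const_smul g)

theorem emb_tendsto [T2Space X] (F : ℕ → X → ℝ) (hF : ∀ j x, 0 ≤ F j x)
    (hs : ∀ j, ∃ K : Set X, IsCompact K ∧ ∀ x, x ∉ K → F j x = 0) :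
    Tendsto (emb (G := G) F hF) (coclosedCompact X) (𝓝 U0) := by
  refine tendsto_subtype_rng.mpr (tendsto_pi_nhds.mpr fun i => tendsto_pi_nhds.mpr fun g => ?_)
  obtain ⟨K, hK, hKF⟩ := hs i.2
  have hK2 : IsCompact ((fun y : X => g⁻¹ • y) '' K) := hK.image (continuous_const_smul _)
  refine tendsto_const_nhds.congr' ?_
  refine Filter.mem_of_superset (hK2.compl_mem_coclosedCompact_of_isClosed hK2.isClosed) ?_
  intro x hx
  have h1 : g • x ∉ K := fun h => hx ⟨g • x, h, by simp⟩
  have h2 : F i.2 (g • x) = 0 := hKF _ h1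
  have h3 := sm_le (G := G) (n := i.1) (hF i.2) (g • x)
  have h4 := sm_nonneg (G := G) (n := i.1) (hF i.2) (g • x)
  rw [h2] at h3
  exact (le_antisymm h3 h4).symm

/-- A countable family of functions with compact support separating the points. -/
theorem exists_family (X : Type) [TopologicalSpace X] [LocallyCompactSpace X] [T2Space X]
    [SecondCountableTopology X] [Nonempty X] :
    ∃ F : ℕ → X → ℝ, (∀ j x, 0 ≤ F j x) ∧ (∀ j x, F j x ≤ 1) ∧ (∀ j, Continuous (F j)) ∧
      (∀ j, ∃ K : Set X, IsCompact K ∧ ∀ x, x ∉ K → F j x = 0) ∧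
      (∀ x, ∃ j, 0 < F j x) ∧ ∀ x y, x ≠ y → ∃ j, F j x ≠ F j y := by
  classical
  let _ : MetricSpace X := TopologicalSpace.metrizableSpaceMetric X
  let q : ℕ → X := TopologicalSpace.denseSeq X
  let A : ℕ × ℕ → X → ℝ := fun p x =>
    if IsCompact (Metric.closedBall (q p.1) (1 / ((p.2 : ℝ) + 1))) then
      min 1 (max 0 (1 / ((p.2 : ℝ) + 1) - dist x (q p.1))) else 0
  have key : ∀ x : X, ∀ e : ℝ, 0 < e → ∃ p, 0 < A p x ∧ ∀ y, e ≤ dist x y → A p y = 0 := by
    intro x e he
    obtain ⟨r, hr, hK⟩ := Metric.exists_isCompact_closedBall x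
    obtain ⟨m, hm⟩ := exists_nat_one_div_lt (show (0 : ℝ) < min e r / 2 by positivity)
    obtain ⟨k, hk⟩ : ∃ k, dist x (q k) < 1 / ((m : ℝ) + 1) := by
      have hd := (TopologicalSpace.denseRange_denseSeq X).exists_dist_lt x
        (show (0 : ℝ) < 1 / ((m : ℝ) + 1) by positivity)
      exact hd
    have hm1 : 1 / ((m : ℝ) + 1) < e / 2 := hm.trans_le (by linarith [min_le_left e r])
    have hm2 : 1 / ((m : ℝ) + 1) < r / 2 := hm.trans_le (by linarith [min_le_right e r])
    have hc : IsCompact (Metric.closedBall (q k) (1 / ((m : ℝ) + 1))) := by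
      refine hK.of_isClosed_subset Metric.isClosed_closedBall fun z hz => ?_
      rw [Metric.mem_closedBall] at hz ⊢
      have := dist_triangle z (q k) x
      rw [dist_comm (q k) x] at this
      linarith
    refine ⟨(k, m), ?_, fun y hy => ?_⟩
    · change 0 < (if IsCompact (Metric.closedBall (q k) (1 / ((m : ℝ) + 1))) then
        min 1 (max 0 (1 / ((m : ℝ) + 1) - dist x (q k))) else 0)
      rw [if_pos hc]
      exact lt_min one_pos (lt_max_of_lt_right (by linarith))
    · change (if IsCompact (Metric.closedBall (q k) (1 / ((m : ℝ) + 1))) then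
        min 1 (max 0 (1 / ((m : ℝ) + 1) - dist y (q k))) else 0) = 0
      rw [if_pos hc]
      have h1 := dist_triangle x (q k) y
      rw [dist_comm (q k) y] at h1
      rw [max_eq_left (by linarith)]
      exact min_eq_right zero_le_one
  have hA : ∀ p, (∀ x, 0 ≤ A p x) ∧ (∀ x, A p x ≤ 1) ∧ Continuous (A p) ∧
      ∃ K : Set X, IsCompact K ∧ ∀ x, x ∉ K → A p x = 0 := by
    intro p
    by_cases hc : IsCompact (Metric.closedBall (q p.1) (1 / ((p.2 : ℝ) + 1)))
    · have hAp : A p = fun x => min 1 (max 0 (1 / ((p.2 : ℝ) + 1) - dist x (q p.1))) := by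
        funext x
        exact if_pos hc
      rw [hAp]
      refine ⟨fun x => by positivity, fun x => min_le_left _ _, by fun_prop, _, hc, fun x hx => ?_⟩
      rw [Metric.mem_closedBall, not_le] at hx
      change min 1 (max 0 (1 / ((p.2 : ℝ) + 1) - dist x (q p.1))) = 0
      rw [max_eq_left (by linarith)]
      exact min_eq_right zero_le_one
    · have hAp : A p = fun x => 0 := by
        funext x
        exact if_neg hc
      rw [hAp]
      exact ⟨fun x => le_rfl, fun x => zero_le_one, continuous_const, ∅, isCompact_empty,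
        fun _ _ => rfl⟩
  refine ⟨fun j => A (Nat.unpair j), fun j => (hA _).1, fun j => (hA _).2.1,
    fun j => (hA _).2.2.1, fun j => (hA _).2.2.2, fun x => ?_, fun x y hxy => ?_⟩
  · obtain ⟨p, hp, -⟩ := key x 1 one_pos
    exact ⟨Nat.pair p.1 p.2, by simpa using hp⟩
  · obtain ⟨p, hp, hy⟩ := key x (dist x y) (dist_pos.mpr hxy)
    refine ⟨Nat.pair p.1 p.2, ?_⟩
    have := hy y le_rfl
    simp only [Nat.unpair_pair]
    rw [this]
    exact hp.ne'

/-- The embedding: `X` is an invariant open subset of an invariant closed subset of `U G`, the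
complement is one fixed point. -/
theorem exists_embedding (G : Type) [Group G] [TopologicalSpace G] [IsTopologicalGroup G]
    [LocallyCompactSpace G] [T2Space G] [SecondCountableTopology G]
    (X : Type) [TopologicalSpace X] [MulAction G X] [ContinuousSMul G X]
    [LocallyCompactSpace X] [T2Space X] [SecondCountableTopology X] [Nonempty X] :
    ∃ Φ : X → U G, IsEmbedding Φ ∧ (∀ (h : G) x, Φ (h • x) = h • Φ x) ∧
      (∀ x, Φ x ≠ U0) ∧ IsClosed (insert U0 (range Φ)) ∧
      Tendsto Φ (coclosedCompact X) (𝓝 U0) := by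
  obtain ⟨F, h0, h1, hc, hs, hp, hsep⟩ := exists_family X
  let Φ : X → U G := emb F h0
  let Ψ : OnePoint X → U G := fun x => x.elim U0 Φ
  have hΨ : Continuous Ψ := by
    rw [OnePoint.continuous_iff]
    exact ⟨emb_tendsto F h0 hs, emb_cont F h0 hc⟩
  have hval : ∀ (x : X) n j, (Φ x).1 (n, j) 1 = sm G n (F j) x := fun x n j => by
    change sm G n (F j) ((1 : G) • x) = _
    rw [one_smul]
  have hne : ∀ x, Φ x ≠ U0 := by
    intro x hx
    obtain ⟨j, hj⟩ := hp x
    obtain ⟨n, hn⟩ := sm_conv (G := G) (h0 j) (h1 j) (hc j) x (half_pos hj)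
    have h2 := hval x n j
    rw [hx] at h2
    have h3 : (U0 : U G).1 (n, j) 1 = 0 := rfl
    linarith
  have hinj : Function.Injective Φ := by
    intro x y hxy
    by_contra hne
    have hall : ∀ n j, sm G n (F j) x = sm G n (F j) y := fun n j => by
      rw [← hval x n j, ← hval y n j, hxy]
    have hle : ∀ j (a b : X), (∀ n, sm G n (F j) a = sm G n (F j) b) → F j a ≤ F j b := by
      intro j a b hab
      refine le_of_forall_pos_le_add fun e he => ?_
      obtain ⟨n, hn⟩ := sm_conv (G := G) (h0 j) (h1 j) (hc j) a he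
      have := sm_le (G := G) (n := n) (h0 j) b
      rw [hab n] at hn
      linarith
    obtain ⟨j, hj⟩ := hsep x y hne
    exact hj (le_antisymm (hle j x y fun n => hall n j) (hle j y x fun n => (hall n j).symm))
  have hΨi : Function.Injective Ψ := by
    intro a b hab
    induction a using OnePoint.rec with
    | infty =>
      induction b using OnePoint.rec with
      | infty => rfl
      | coe b => exact absurd hab.symm (hne b)
    | coe a =>
      induction b using OnePoint.rec with
      | infty => exact absurd hab (hne a)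
      | coe b => exact congrArg _ (hinj hab)
  have hemb : IsClosedEmbedding Ψ := hΨ.isClosedEmbedding hΨi
  have hΦ : Φ = Ψ ∘ ((↑) : X → OnePoint X) := rfl
  refine ⟨Φ, ?_, fun h x => emb_smul F h0 h x, hne, ?_, emb_tendsto F h0 hs⟩
  · rw [hΦ]
    exact hemb.isEmbedding.comp OnePoint.isOpenEmbedding_coe.isEmbedding
  · have : insert U0 (range Φ) = range Ψ := by
      ext y
      constructor
      · rintro (rfl | ⟨x, rfl⟩)
        · exact ⟨OnePoint.infty, rfl⟩
        · exact ⟨(x : OnePoint X), rfl⟩
      · rintro ⟨a, rfl⟩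
        induction a using OnePoint.rec with
        | infty => exact Or.inl rfl
        | coe a => exact Or.inr ⟨a, rfl⟩
    rw [this]
    exact hemb.isClosed_range

end Pool.Agent.Q27.GS
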