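import Pool.Agent.Q27.GS.Cpt

/-!
# One metrizable compactification of `G` decides
-/

namespace Pool.Agent.Q27.GS

open Topology Set Filter

variable {G : Type} [Group G] [TopologicalSpace G]

/-- The `G`-space `A × (0, 1)`. -/
def GSp.line (A : GSp G) : GSp G :=
  let act : MulAction G (A.X × Ioo (0 : ℝ) 1) :=
    { smul := fun g p => (g • p.1, p.2)
      one_smul := fun p => Prod.ext (one_smul G p.1) rfl
      mul_smul := fun a b p => Prod.ext (mul_smul a b p.1) rfl }
  have _hl : LocallyCompactSpace (Ioo (0 : ℝ) 1) :=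
    isOpen_Ioo.isOpenEmbedding_subtypeVal.locallyCompactSpace
  { X := A.X × Ioo (0 : ℝ) 1
    act := act
    cont := ⟨(continuous_fst.smul (continuous_fst.comp continuous_snd)).prodMk
      (continuous_snd.comp continuous_snd)⟩ }

variable [IsTopologicalGroup G]
  [LocallyCompactSpace G] [T2Space G] [SecondCountableTopology G]

variable (G) in
/-- `G` with the left translations. -/
def self : GSp G where
  X := G

variable (G) in
/-- The space of functions. -/
def UG : GSp G where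
  X := U G

theorem exists_ambient (A : GSp G) [CompactSpace A.X] [Nonempty A.X] [NoncompactSpace G] :
    ∃ (Z : GSp G) (_ : CompactSpace Z.X) (z0 : Z.X) (j : A.line.X → Z.X) (c : G → Z.X)
      (d : Z.X → Z.X → ℝ), (∀ g : G, g • z0 = z0) ∧ IsOpenEmbedding j ∧ Equi A.line Z j ∧
      range j = {z0}ᶜ ∧ Continuous c ∧ (∀ z, d z z = 0) ∧ (∀ x y z, d x z ≤ d x y + d y z) ∧
      (∀ (z0 : Z.X) (W : Set Z.X), W ∈ 𝓝 z0 ↔ ∃ e > 0, ∀ z, d z z0 < e → z ∈ W) ∧
      (∀ h0 : G, ∀ e > 0, ∃ N ∈ 𝓝 h0, ∃ D : Set G, IsCompact D ∧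
        ∀ h ∈ N, ∀ g, g ∉ D → d (c (h * g)) (h • c g) < e) ∧
      (∀ z : Z.X, ∀ W ∈ 𝓝 z, ∀ D : Set G, IsCompact D → ∃ g, g ∉ D ∧ c g ∈ W) := by
  classical
  have hne : Nonempty A.line.X := ⟨(Classical.arbitrary A.X, ⟨1 / 2, by norm_num, by norm_num⟩)⟩
  obtain ⟨Φ, hΦ, hΦe, hΦ0, hcl, hΦt⟩ := exists_embedding G A.line.X
  have hinv : ∀ (g : G) (φ : (UG G).X), φ ∈ insert U0 (range Φ) → g • φ ∈ insert U0 (range Φ) := by
    rintro g φ (rfl | ⟨x, rfl⟩)
    · exact Or.inl (smul_U0 g)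
    · exact Or.inr ⟨g • x, hΦe g x⟩
  let Z : GSp G := (UG G).sub (insert U0 (range Φ)) hcl hinv
  have hZc : CompactSpace Z.X :=
    isCompact_iff_compactSpace.mp (hcl.isCompact)
  let z0 : Z.X := ⟨U0, Or.inl rfl⟩
  have hz0 : ∀ g : G, g • z0 = z0 := fun g => Subtype.ext (smul_U0 g)
  let j : A.line.X → Z.X := fun x => ⟨Φ x, Or.inr ⟨x, rfl⟩⟩
  have hjc : Continuous j := hΦ.continuous.subtype_mk _
  have hjr : range j = {z0}ᶜ := by
    ext z
    constructor
    · rintro ⟨x, rfl⟩ h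
      exact hΦ0 x (congrArg Subtype.val h)
    · intro hz
      rcases z.2 with h | ⟨x, hx⟩
      · exact absurd (Subtype.ext h) hz
      · exact ⟨x, Subtype.ext hx⟩
  have hj : IsOpenEmbedding j := by
    refine ⟨IsEmbedding.of_comp hjc (g := Subtype.val) continuous_subtype_val hΦ, ?_⟩
    rw [hjr]
    exact isClosed_singleton.isOpen_compl
  -- the map from `X × [0, 1]`
  let E : A.X → ℝ → Z.X := fun x t => if h : t ∈ Ioo (0 : ℝ) 1 then j (x, ⟨t, h⟩) else z0
  have hE1 : ∀ x t (h : t ∈ Ioo (0 : ℝ) 1), E x t = j (x, ⟨t, h⟩) := fun x t h => dif_pos h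
  have hE0 : ∀ x t, t ∉ Ioo (0 : ℝ) 1 → E x t = z0 := fun x t h => dif_neg h
  have hEz : ∀ x, E x 0 = z0 := fun x => hE0 x 0 (by simp)
  have hEe : ∀ (g : G) x t, E (g • x) t = g • E x t := by
    intro g x t
    by_cases h : t ∈ Ioo (0 : ℝ) 1
    · rw [hE1 _ _ h, hE1 _ _ h]
      exact Subtype.ext (hΦe g (x, ⟨t, h⟩))
    · rw [hE0 _ _ h, hE0 _ _ h, hz0]
  have hEc : Continuous fun p : A.X × ℝ => E p.1 p.2 := by
    rw [continuous_iff_continuousAt]
    rintro ⟨x, t⟩
    have hem : IsOpenEmbedding (Prod.map id Subtype.val : A.X × Ioo (0 : ℝ) 1 → A.X × ℝ) :=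
      IsOpenEmbedding.id.prodMap isOpen_Ioo.isOpenEmbedding_subtypeVal
    by_cases h : t ∈ Ioo (0 : ℝ) 1
    · have h1 : ContinuousAt ((fun p : A.X × ℝ => E p.1 p.2) ∘
          (Prod.map id Subtype.val : A.X × Ioo (0 : ℝ) 1 → A.X × ℝ)) (x, ⟨t, h⟩) := by
        have h2 : ((fun p : A.X × ℝ => E p.1 p.2) ∘
          (Prod.map id Subtype.val : A.X × Ioo (0 : ℝ) 1 → A.X × ℝ)) = j := by
          funext p
          exact hE1 p.1 p.2 p.2.2
        rw [h2]
        exact hjc.continuousAt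
      exact (hem.continuousAt_iff (x := (x, ⟨t, h⟩))).mp h1
    · have h1 : E x t = z0 := hE0 x t h
      let vl : Z.X → U G := fun z => z.1
      have hsub : IsEmbedding vl := .subtypeVal
      change Tendsto (fun p : A.X × ℝ => E p.1 p.2) (𝓝 (x, t)) (𝓝 (E x t))
      rw [h1]
      refine hsub.isInducing.tendsto_nhds_iff.mpr ?_
      intro W hW
      have hD := Filter.mem_coclosedCompact_iff.mp (hΦt hW)
      have hD2 : IsClosed ((Prod.map id Subtype.val : A.X × Ioo (0 : ℝ) 1 → A.X × ℝ) ''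
          (closure (Φ ⁻¹' W)ᶜ)) := (hD.image hem.continuous).isClosed
      have hm : ((Prod.map id Subtype.val : A.X × Ioo (0 : ℝ) 1 → A.X × ℝ) ''
          (closure (Φ ⁻¹' W)ᶜ))ᶜ ∈ 𝓝 (x, t) := by
        refine hD2.isOpen_compl.mem_nhds ?_
        rintro ⟨q, -, hq⟩
        have : (q.2 : ℝ) = t := congrArg Prod.snd hq
        exact h (this ▸ q.2.2)
      change ∀ᶠ p in 𝓝 (x, t), (E p.1 p.2).1 ∈ W
      filter_upwards [hm] with p hp
      by_cases hpt : p.2 ∈ Ioo (0 : ℝ) 1
      · rw [hE1 _ _ hpt]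
        by_contra hc
        refine hp ⟨(p.1, ⟨p.2, hpt⟩), subset_closure ?_, rfl⟩
        exact hc
      · rw [hE0 _ _ hpt]
        exact mem_of_mem_nhds hW
  let mZ : MetricSpace Z.X := TopologicalSpace.metrizableSpaceMetric Z.X
  let mX : MetricSpace A.X := TopologicalSpace.metrizableSpaceMetric A.X
  have hunif : ∀ e > 0, ∃ δ > 0, ∀ (p q : A.X × Icc (0 : ℝ) 1), dist p q < δ →
      dist (E p.1 p.2) (E q.1 q.2) < e := by
    have hc : Continuous fun p : A.X × Icc (0 : ℝ) 1 => E p.1 p.2 :=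
      hEc.comp (continuous_fst.prodMk (continuous_subtype_val.comp continuous_snd))
    exact Metric.uniformContinuous_iff.mp (CompactSpace.uniformContinuous_of_continuous hc)
  let q : ℕ → A.X × Icc (0 : ℝ) 1 := TopologicalSpace.denseSeq _
  obtain ⟨T, a, hTc, hTb, hTa, hTs, hTd⟩ := exists_wave G (fun k => (q (Nat.unpair k).1).1)
    (fun k => ((q (Nat.unpair k).1).2 : ℝ)) (fun k => (q (Nat.unpair k).1).2.2)
  let T' : G → Icc (0 : ℝ) 1 := fun g => ⟨T g, hTb g⟩
  have hu2 : ∀ e > 0, ∃ δ > 0, ∀ (x : A.X) (s t : ℝ), s ∈ Icc (0 : ℝ) 1 → t ∈ Icc (0 : ℝ) 1 →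
      |s - t| < δ → dist (E x s) (E x t) < e := by
    intro e he
    obtain ⟨δ, hδ, h⟩ := hunif e he
    refine ⟨δ, hδ, fun x s t hs ht hst => h (x, ⟨s, hs⟩) (x, ⟨t, ht⟩) ?_⟩
    rw [Prod.dist_eq, dist_self]
    exact max_lt hδ hst
  let c : G → Z.X := fun g => E (g • a g) (T g)
  refine ⟨Z, hZc, z0, j, c, fun x y => dist x y, hz0, hj, fun g x => Subtype.ext (hΦe g x), hjr,
    ?_, fun z => dist_self z, fun x y z => dist_triangle x y z, ?_, ?_, ?_⟩
  · rw [continuous_iff_continuousAt]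
    intro g0
    rcases (hTb g0).1.lt_or_eq with h | h
    · have h1 : (fun g : G => E (g • a g0) (T g)) =ᶠ[𝓝 g0] c := by
        filter_upwards [hTa g0 h] with g hg
        simp only [c]
        rw [hg]
      have h2 : Continuous fun g : G => E (g • a g0) (T g) :=
        hEc.comp ((continuous_id.smul continuous_const).prodMk hTc)
      exact h2.continuousAt.congr h1
    · have h0 : c g0 = z0 := by
        simp only [c]
        rw [← h, hEz]
      rw [ContinuousAt, h0, Metric.tendsto_nhds]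
      intro e he
      obtain ⟨δ, hδ, hd⟩ := hu2 e he
      have h1 : ∀ᶠ g in 𝓝 g0, T g < δ := by
        refine hTc.continuousAt.eventually_lt continuousAt_const ?_
        rw [← h]; exact hδ
      filter_upwards [h1] with g hg
      have h2 := hd (g • a g) (T g) 0 (hTb g) ⟨le_rfl, zero_le_one⟩ (by
        rw [sub_zero, abs_of_nonneg (hTb g).1]; exact hg)
      rw [hEz] at h2
      exact h2
  · intro z W
    rw [Metric.mem_nhds_iff]
    exact Iff.rfl
  · intro h0 e he
    obtain ⟨C, hC, hC1⟩ := exists_compact_mem_nhds h0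
    obtain ⟨δ, hδ, hd⟩ := hu2 e he
    obtain ⟨D, hD, hDT⟩ := hTs C hC (δ / 2) (by positivity)
    refine ⟨C, hC1, D, hD, fun h hh g hg => ?_⟩
    obtain ⟨h1, h2⟩ := hDT h hh g hg
    have h3 : ∃ a' : A.X, c (h * g) = E ((h * g) • a') (T (h * g)) ∧
        h • c g = E ((h * g) • a') (T g) := by
      rcases h2 with h2 | h2 | h2
      · refine ⟨a (h * g), rfl, ?_⟩
        simp only [c]
        rw [h2, hEz, hEz, hz0]
      · refine ⟨a g, ?_, ?_⟩
        · simp only [c]
          rw [h2, hEz, hEz]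
        · simp only [c]
          rw [mul_smul, hEe h]
      · refine ⟨a g, ?_, ?_⟩
        · simp only [c]
          rw [h2]
        · simp only [c]
          rw [mul_smul, hEe h]
    obtain ⟨a', h4, h5⟩ := h3
    rw [h4, h5]
    exact hd _ _ _ (hTb _) (hTb _) (h1.trans_lt (by linarith))
  · intro z W hW D hD
    obtain ⟨e, he, hWe⟩ := Metric.mem_nhds_iff.mp hW
    obtain ⟨δ, hδ, hd⟩ := hunif (e / 2) (by positivity)
    have hp : ∃ p : A.X × Icc (0 : ℝ) 1, E p.1 p.2 = z := by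
      by_cases hz : z = z0
      · exact ⟨(Classical.arbitrary A.X, ⟨0, le_rfl, zero_le_one⟩), by rw [hz]; exact hEz _⟩
      · have : z ∈ range j := by rw [hjr]; exact hz
        obtain ⟨y, rfl⟩ := this
        exact ⟨(y.1, ⟨y.2, y.2.2.1.le, y.2.2.2.le⟩), hE1 y.1 y.2 y.2.2⟩
    obtain ⟨p, hp⟩ := hp
    obtain ⟨m, hm⟩ := (TopologicalSpace.denseRange_denseSeq (A.X × Icc (0 : ℝ) 1)).exists_dist_lt p hδ
    obtain ⟨k0, hk0⟩ := hTd D hD (δ / 2) (by positivity)
    obtain ⟨g, hg, hgx, hgt⟩ := hk0 (Nat.pair m k0) (Nat.right_le_pair m k0)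
    rw [Nat.unpair_pair] at hgx hgt
    refine ⟨g, hg, hWe ?_⟩
    rw [Metric.mem_ball]
    have h1 : dist (c g) (E (q m).1 (q m).2) < e / 2 := by
      simp only [c]
      rw [hgx]
      refine hd ((q m).1, T' g) (q m) ?_
      rw [Prod.dist_eq]
      refine max_lt (by rw [dist_self]; exact hδ) ?_
      exact hgt.trans_lt (by linarith)
    have h2 : dist (E (q m).1 (q m).2) z < e / 2 := by
      rw [← hp]
      refine hd (q m) p ?_
      rw [dist_comm]; exact hm
    calc dist (c g) z ≤ dist (c g) (E (q m).1 (q m).2) + dist (E (q m).1 (q m).2) z :=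
          dist_triangle _ _ _
      _ < e := by linarith

/-- Every second countable locally compact non-compact group has a metrizable compactification
which decides the property for all `G`-spaces. -/
theorem exists_decisive (G : Type) [Group G] [TopologicalSpace G] [IsTopologicalGroup G]
    [LocallyCompactSpace G] [T2Space G] [SecondCountableTopology G] [NoncompactSpace G] :
    ∃ K : GSp G, CompactSpace K.X ∧
      (∃ orb : G → K.X, IsOpenEmbedding orb ∧ DenseRange orb ∧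
        ∀ h g : G, orb (h * g) = h • orb g) ∧
      ∀ BC : GSp G → Prop, IsBC BC → (BC K ↔ ∀ A : GSp G, BC A) := by
  let X : GSp G := UX G
  have hXc : CompactSpace X.X := inferInstanceAs (CompactSpace (XSet G))
  have hXn : Nonempty X.X := ⟨⟨(U0, fun _ => false), fun g b hb => by cases hb⟩⟩
  obtain ⟨Z, hZc, z0, j, c, d, hz0, hj, hje, hjr, hc, hd1, hd2, hd3, hd4, hd5⟩ :=
    exists_ambient X
  obtain ⟨γ, hγ, hγe, hγ0, hγc, hγt⟩ := exists_embedding G G
  obtain ⟨K, hK, orb, rem, horb, hdense, horbe, hrem, hreme, hr⟩ :=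
    exists_compactification γ hγ hγe hγ0 hγc hγt Z c hc d hd1 hd2 hd3 hd4 hd5
  refine ⟨K, hK, ⟨orb, horb, hdense, horbe⟩, fun BC h => ⟨fun hBK => ?_, fun h => h K⟩⟩
  have hBG : BC (self G) := h.orbit (self G) id (.id) fun g h => rfl
  have hBZ : BC Z := (h.excision Z K (self G) rem orb hrem horb hreme horbe hr).2.2 hBK hBG
  let P : GSp G := Z.sub {z0} isClosed_singleton (by
    rintro g z rfl
    exact hz0 g)
  have hBP : BC P := h.point P ⟨⟨z0, rfl⟩⟩ ⟨fun a b => Subtype.ext (a.2.trans b.2.symm)⟩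
  have hBL : BC X.line := by
    refine (h.excision P Z X.line (fun x => x.1) j isClosed_singleton.isClosedEmbedding_subtypeVal
      hj (fun _ _ => rfl) hje ?_).1 hBP hBZ
    change range j = (range (Subtype.val : ({z0} : Set Z.X) → Z.X))ᶜ
    rw [Subtype.range_coe, hjr]
  have hBX : BC X := (h.line X X.line id .id fun g b => rfl).mpr hBL
  exact fun A => of_UX h hBX A

end Pool.Agent.Q27.GS
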