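import Mathlib

/-!
# A compact metrizable space of functions on a group on which the group acts continuously

Let `G` be a second countable locally compact Hausdorff group.  We choose (`wt`) continuous
functions `w n : G → [0, 1]` which vanish at `1`, are `1` outside a compact set and, for large
`n`, outside any given neighbourhood of `1`.  The functions `φ : G → [0, 1]` with
`|φ (v g) - φ g| ≤ sup_k |w n (k v) - w n k|` form a compact metrizable space; `U G` is the
product of countably many copies of these spaces, `G` acts by right translations.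
-/

namespace Pool.Agent.Q27.GS

open Topology Set Filter
open scoped Pointwise

variable (G : Type) [Group G] [TopologicalSpace G] [IsTopologicalGroup G]
  [LocallyCompactSpace G] [T2Space G] [SecondCountableTopology G]

theorem exists_wt : ∃ w : ℕ → G → ℝ, (∀ n, Continuous (w n)) ∧
    (∀ n g, 0 ≤ w n g ∧ w n g ≤ 1) ∧ (∀ n, w n 1 = 0) ∧
    (∀ n, ∃ K : Set G, IsCompact K ∧ 1 ∈ K ∧ ∀ g, g ∉ K → w n g = 1) ∧
    (∀ V ∈ 𝓝 (1 : G), ∃ n, ∀ g, g ∉ V → w n g = 1) := by
  let _ : MetricSpace G := TopologicalSpace.metrizableSpaceMetric G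
  obtain ⟨r, hr, hK⟩ := Metric.exists_isCompact_closedBall (1 : G)
  refine ⟨fun n g => min 1 (dist g 1 * ((n + 1 : ℝ) / r)), fun n => by fun_prop,
    fun n g => ⟨by positivity, min_le_left _ _⟩, fun n => by simp, fun n => ?_, fun V hV => ?_⟩
  · refine ⟨Metric.closedBall 1 r, hK, by simp [hr.le], fun g hg => ?_⟩
    rw [Metric.mem_closedBall, not_le] at hg
    refine min_eq_left ?_
    rw [← mul_div_assoc, le_div_iff₀ hr]
    nlinarith [hg, (Nat.cast_nonneg n : (0 : ℝ) ≤ n), dist_nonneg (x := g) (y := 1)]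
  · obtain ⟨e, he, hball⟩ := Metric.mem_nhds_iff.mp hV
    obtain ⟨n, hn⟩ := exists_nat_gt (r / e)
    refine ⟨n, fun g hg => ?_⟩
    have h1 : e ≤ dist g 1 := by
      by_contra h
      exact hg (hball (by simpa using h))
    refine min_eq_left ?_
    rw [div_lt_iff₀ he] at hn
    rw [← mul_div_assoc, le_div_iff₀ hr]
    nlinarith [h1, (Nat.cast_nonneg n : (0 : ℝ) ≤ n)]

/-- The chosen functions. -/
noncomputable def wt : ℕ → G → ℝ := (exists_wt G).choose

theorem wt_cont (n : ℕ) : Continuous (wt G n) := (exists_wt G).choose_spec.1 n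
theorem wt_nonneg (n : ℕ) (g : G) : 0 ≤ wt G n g := ((exists_wt G).choose_spec.2.1 n g).1
theorem wt_le_one (n : ℕ) (g : G) : wt G n g ≤ 1 := ((exists_wt G).choose_spec.2.1 n g).2
theorem wt_one (n : ℕ) : wt G n 1 = 0 := (exists_wt G).choose_spec.2.2.1 n
theorem wt_compact (n : ℕ) : ∃ K : Set G, IsCompact K ∧ 1 ∈ K ∧ ∀ g, g ∉ K → wt G n g = 1 :=
  (exists_wt G).choose_spec.2.2.2.1 n
theorem wt_small (V : Set G) (hV : V ∈ 𝓝 (1 : G)) : ∃ n, ∀ g, g ∉ V → wt G n g = 1 :=
  (exists_wt G).choose_spec.2.2.2.2 V hV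

/-- The modulus of uniform continuity of `wt G n` for right translations. -/
noncomputable def md (n : ℕ) (v : G) : ℝ := ⨆ k : G, |wt G n (k * v) - wt G n k|

theorem abs_le_one (n : ℕ) (g h : G) : |wt G n g - wt G n h| ≤ 1 := by
  rw [abs_le]
  constructor <;> linarith [wt_nonneg G n g, wt_nonneg G n h, wt_le_one G n g, wt_le_one G n h]

theorem le_md (n : ℕ) (v k : G) : |wt G n (k * v) - wt G n k| ≤ md G n v :=
  le_ciSup (f := fun k : G => |wt G n (k * v) - wt G n k|)
    ⟨1, by rintro _ ⟨k, rfl⟩; exact abs_le_one G n _ _⟩ k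

theorem md_nonneg (n : ℕ) (v : G) : 0 ≤ md G n v :=
  (abs_nonneg _).trans (le_md G n v 1)

theorem md_tendsto (n : ℕ) : Tendsto (md G n) (𝓝 1) (𝓝 0) := by
  obtain ⟨K, hK, h1K, hw⟩ := wt_compact G n
  obtain ⟨L, hL, hL1⟩ := exists_compact_mem_nhds (1 : G)
  have hC : IsCompact (K * L⁻¹) := hK.mul hL.inv
  have h1L : (1 : G) ∈ L := mem_of_mem_nhds hL1
  rw [Metric.tendsto_nhds]
  intro e he
  have h2 : ∀ᶠ v in 𝓝 (1 : G), ∀ k ∈ K * L⁻¹, |wt G n (k * v) - wt G n k| < e / 2 := by
    refine hC.eventually_forall_of_forall_eventually fun k _ => ?_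
    have hc : Continuous fun z : G × G => |wt G n (z.2 * z.1) - wt G n z.2| := by
      have := wt_cont G n
      fun_prop
    have h0 : (fun z : G × G => |wt G n (z.2 * z.1) - wt G n z.2|) (1, k) < e / 2 := by
      simp; positivity
    exact hc.continuousAt.eventually_lt continuousAt_const h0
  filter_upwards [h2, hL1] with v hv hvL
  have h3 : md G n v ≤ e / 2 := by
    refine ciSup_le fun k => ?_
    by_cases hk : k ∈ K * L⁻¹
    · exact (hv k hk).le
    · have hk1 : k ∉ K := fun h => hk ⟨k, h, 1, by simpa using h1L, by simp⟩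
      have hk2 : k * v ∉ K := fun h => hk ⟨k * v, h, v⁻¹, by simpa using hvL, by simp⟩
      rw [hw _ hk1, hw _ hk2]
      simp; positivity
  rw [Real.dist_eq, sub_zero, abs_of_nonneg (md_nonneg G n v)]
  linarith

/-- The functions which are uniformly as continuous as `wt G n`, for all indices `(n, j)`. -/
def USet : Set (ℕ × ℕ → G → ℝ) :=
  {φ | ∀ i g, (0 ≤ φ i g ∧ φ i g ≤ 1) ∧ ∀ v, |φ i (v * g) - φ i g| ≤ md G i.1 v}

theorem isClosed_USet : IsClosed (USet G) := by
  have he : ∀ (i : ℕ × ℕ) (g : G), Continuous fun φ : ℕ × ℕ → G → ℝ => φ i g := fun i g =>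
    (continuous_apply g).comp (continuous_apply i)
  have : USet G = ⋂ (i : ℕ × ℕ) (g : G), ({φ | 0 ≤ φ i g} ∩ {φ | φ i g ≤ 1}) ∩
      ⋂ v, {φ | |φ i (v * g) - φ i g| ≤ md G i.1 v} := by
    ext φ
    simp [USet]
  rw [this]
  refine isClosed_iInter fun i => isClosed_iInter fun g => ?_
  refine IsClosed.inter (IsClosed.inter ?_ ?_) (isClosed_iInter fun v => ?_)
  · exact isClosed_le continuous_const (he i g)
  · exact isClosed_le (he i g) continuous_const
  · exact isClosed_le (((he i (v * g)).sub (he i g)).abs) continuous_const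

/-- The compact space of functions. -/
abbrev U : Type := USet G

instance : CompactSpace (U G) := by
  refine isCompact_iff_compactSpace.mp ?_
  have h : IsCompact (Set.pi univ fun _ : ℕ × ℕ => Set.pi univ fun _ : G => Icc (0 : ℝ) 1) :=
    isCompact_univ_pi fun _ => isCompact_univ_pi fun _ => isCompact_Icc
  refine h.of_isClosed_subset (isClosed_USet G) fun φ hφ i _ g _ => ?_
  exact ⟨(hφ i g).1.1, (hφ i g).1.2⟩

variable {G}

theorem U_cont (φ : U G) (i : ℕ × ℕ) : Continuous (φ.1 i) := by
  rw [continuous_iff_continuousAt]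
  intro g0
  rw [ContinuousAt, tendsto_iff_dist_tendsto_zero]
  have h1 : Tendsto (fun g : G => md G i.1 (g * g0⁻¹)) (𝓝 g0) (𝓝 0) := by
    refine (md_tendsto G i.1).comp ?_
    have : Tendsto (fun g : G => g * g0⁻¹) (𝓝 g0) (𝓝 (g0 * g0⁻¹)) :=
      (continuous_id.mul continuous_const).tendsto g0
    simpa using this
  refine squeeze_zero (fun _ => dist_nonneg) (fun g => ?_) h1
  have := (φ.2 i g0).2 (g * g0⁻¹)
  simpa [Real.dist_eq] using this

instance : SecondCountableTopology (U G) := by
  obtain ⟨D, hDc, hD⟩ := TopologicalSpace.exists_countable_dense G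
  have : Countable D := hDc
  let r : U G → (ℕ × ℕ → D → ℝ) := fun φ i d => φ.1 i d
  have hr : Continuous r := by
    refine continuous_pi fun i => continuous_pi fun d => ?_
    exact (continuous_apply (d : G)).comp ((continuous_apply i).comp continuous_subtype_val)
  have hi : Function.Injective r := by
    intro φ ψ h
    refine Subtype.ext (funext fun i => ?_)
    refine Continuous.ext_on hD (U_cont φ i) (U_cont ψ i) fun d hd => ?_
    exact congrFun (congrFun h i) ⟨d, hd⟩
  exact (hr.isClosedEmbedding hi).isEmbedding.secondCountableTopology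

instance : MulAction G (U G) where
  smul h φ := ⟨fun i g => φ.1 i (g * h), fun i g =>
    ⟨(φ.2 i (g * h)).1, fun v => by
      have := (φ.2 i (g * h)).2 v
      simpa [mul_assoc] using this⟩⟩
  one_smul φ := Subtype.ext (funext fun i => funext fun g => by
    change φ.1 i (g * 1) = φ.1 i g
    rw [mul_one])
  mul_smul a b φ := Subtype.ext (funext fun i => funext fun g => by
    change φ.1 i (g * (a * b)) = φ.1 i (g * a * b)
    rw [mul_assoc])

theorem smul_val (h : G) (φ : U G) (i : ℕ × ℕ) (g : G) : (h • φ).1 i g = φ.1 i (g * h) := rfl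

instance : ContinuousSMul G (U G) := by
  refine ⟨?_⟩
  refine Continuous.subtype_mk (f := fun p : G × U G => fun i g => p.2.1 i (g * p.1)) ?_
    (fun p => (p.1 • p.2).2)
  refine continuous_pi fun i => continuous_pi fun g => ?_
  rw [continuous_iff_continuousAt]
  rintro ⟨h0, φ0⟩
  rw [ContinuousAt, tendsto_iff_dist_tendsto_zero]
  have h1 : Tendsto (fun p : G × U G => md G i.1 (g * p.1 * h0⁻¹ * g⁻¹)) (𝓝 (h0, φ0)) (𝓝 0) := by
    refine (md_tendsto G i.1).comp ?_
    have hc : Continuous fun p : G × U G => g * p.1 * h0⁻¹ * g⁻¹ := by fun_prop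
    have := hc.tendsto (h0, φ0)
    simpa using this
  have h2 : Tendsto (fun p : G × U G => dist (p.2.1 i (g * h0)) (φ0.1 i (g * h0)))
      (𝓝 (h0, φ0)) (𝓝 0) := by
    have hc : Continuous fun p : G × U G => p.2.1 i (g * h0) :=
      (continuous_apply (g * h0)).comp ((continuous_apply i).comp
        (continuous_subtype_val.comp continuous_snd))
    exact tendsto_iff_dist_tendsto_zero.mp (hc.tendsto (h0, φ0))
  have h3 := h1.add h2
  rw [add_zero] at h3
  refine squeeze_zero (fun _ => dist_nonneg) (fun p => ?_) h3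
  refine (dist_triangle _ (p.2.1 i (g * h0)) _).trans (add_le_add ?_ le_rfl)
  have := (p.2.2 i (g * h0)).2 (g * p.1 * h0⁻¹ * g⁻¹)
  simpa [Real.dist_eq, mul_assoc] using this

/-- The zero function. -/
def U0 : U G := ⟨fun _ _ => 0, fun i g => ⟨⟨le_rfl, zero_le_one⟩, fun v => by
  simpa using md_nonneg G i.1 v⟩⟩

theorem smul_U0 (h : G) : h • (U0 : U G) = U0 := Subtype.ext rfl

end Pool.Agent.Q27.GS
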