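import Pool.Agent.Q27.GS.Emb

/-!
# One compact metrizable space with an action decides a property of all of them

`GSp G`: second countable locally compact Hausdorff `G`-spaces.  `UX G` is a compact one, it lies
over the Cantor space of all codes of open sets of `U G`.  If a property `BC` of `G`-spaces has
the permanence properties `IsBC` and holds for `UX G` then it holds for all `G`-spaces.
-/

namespace Pool.Agent.Q27.GS

open Topology Set Filter

/-- Second countable locally compact Hausdorff `G`-spaces. -/
structure GSp (G : Type) [Group G] [TopologicalSpace G] where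
  X : Type
  [top : TopologicalSpace X]
  [act : MulAction G X]
  [cont : ContinuousSMul G X]
  [lc : LocallyCompactSpace X]
  [t2 : T2Space X]
  [sc : SecondCountableTopology X]

attribute [instance] GSp.top GSp.act GSp.cont GSp.lc GSp.t2 GSp.sc

section
variable {G : Type} [Group G] [TopologicalSpace G]

/-- `f` is equivariant. -/
def Equi (A B : GSp G) (f : A.X → B.X) : Prop := ∀ (g : G) (x : A.X), f (g • x) = g • f x

/-- The permanence properties of the property `BC` of `G`-spaces: it holds for one point; it is
inherited by invariant clopen subspaces; if it holds for two of a closed invariant subspace, its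
complement and the whole space then it holds for the third one; in compact spaces it is inherited
by intersections of decreasing sequences of closed invariant subspaces; it holds for `G` with the
left translations; it holds for `A` if and only if it holds for `A × (0, 1)`. -/
structure IsBC (BC : GSp G → Prop) : Prop where
  point : ∀ A : GSp G, Nonempty A.X → Subsingleton A.X → BC A
  piece : ∀ (A B : GSp G) (f : A.X → B.X), IsClosedEmbedding f → IsOpenEmbedding f →
    Equi A B f → BC B → BC A
  excision : ∀ (Z A W : GSp G) (i : Z.X → A.X) (j : W.X → A.X), IsClosedEmbedding i →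
    IsOpenEmbedding j → Equi Z A i → Equi W A j → range j = (range i)ᶜ →
    (BC Z → BC A → BC W) ∧ (BC Z → BC W → BC A) ∧ (BC A → BC W → BC Z)
  limit : ∀ (A B : GSp G) (Z : ℕ → GSp G) (i : ∀ n, (Z n).X → A.X) (j : B.X → A.X),
    CompactSpace A.X → (∀ n, IsClosedEmbedding (i n)) → (∀ n, Equi (Z n) A (i n)) →
    Antitone (fun n => range (i n)) → IsClosedEmbedding j → Equi B A j →
    range j = ⋂ n, range (i n) → (∀ n, BC (Z n)) → BC B
  orbit : ∀ (A : GSp G) (f : G → A.X), IsHomeomorph f → (∀ g h : G, f (g * h) = g • f h) → BC A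
  line : ∀ (A B : GSp G) (f : B.X → A.X × Ioo (0 : ℝ) 1), IsHomeomorph f →
    (∀ (g : G) (b : B.X), f (g • b) = (g • (f b).1, (f b).2)) → (BC A ↔ BC B)

/-- A closed invariant subspace. -/
def GSp.sub (A : GSp G) (s : Set A.X) (hs : IsClosed s)
    (hi : ∀ (g : G) (x : A.X), x ∈ s → g • x ∈ s) : GSp G :=
  let act : MulAction G s :=
    { smul := fun g x => ⟨g • x.1, hi g x.1 x.2⟩
      one_smul := fun x => Subtype.ext (one_smul G x.1)
      mul_smul := fun a b x => Subtype.ext (mul_smul a b x.1) }
  { X := s
    act := act
    cont := ⟨Continuous.subtype_mk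
      (continuous_fst.smul (continuous_subtype_val.comp continuous_snd)) _⟩
    lc := hs.isClosedEmbedding_subtypeVal.locallyCompactSpace }

end

variable (G : Type) [Group G] [TopologicalSpace G] [IsTopologicalGroup G]
  [LocallyCompactSpace G] [T2Space G] [SecondCountableTopology G]

/-- The index set: a countable basis of the topology of `U G`. -/
abbrev Idx : Type := TopologicalSpace.countableBasis (U G)

instance : Countable (Idx G) := (TopologicalSpace.countable_countableBasis (U G)).to_subtype

/-- The pairs `(φ, S)`, `S` a set of basic open sets, such that no translate of `φ` lies in a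
member of `S`. -/
def XSet : Set (U G × (Idx G → Bool)) :=
  {p | ∀ (g : G) (b : Idx G), p.2 b = true → g • p.1 ∉ (b : Set (U G))}

theorem isClosed_XSet : IsClosed (XSet G) := by
  have : XSet G = ⋂ (g : G) (b : Idx G), ({p | p.2 b = false} ∪ {p | g • p.1 ∉ (b : Set (U G))}) := by
    ext p
    simp only [XSet, mem_ofPred_eq, mem_iInter, mem_union]
    refine forall_congr' fun g => forall_congr' fun b => ?_
    cases p.2 b <;> simp
  rw [this]
  refine isClosed_iInter fun g => isClosed_iInter fun b => IsClosed.union ?_ ?_
  · exact isClosed_eq ((continuous_apply b).comp continuous_snd) continuous_const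
  · have hb : IsOpen (b : Set (U G)) := TopologicalSpace.isOpen_of_mem_countableBasis b.2
    have hc : Continuous fun p : U G × (Idx G → Bool) => g • p.1 := by fun_prop
    exact hb.isClosed_compl.preimage hc

instance : CompactSpace (XSet G) := isCompact_iff_compactSpace.mp (isClosed_XSet G).isCompact

instance : MulAction G (XSet G) where
  smul g p := ⟨(g • p.1.1, p.1.2), fun h b hb => by
    have := p.2 (h * g) b hb
    rwa [mul_smul] at this⟩
  one_smul p := Subtype.ext (Prod.ext (one_smul G p.1.1) rfl)
  mul_smul a b p := Subtype.ext (Prod.ext (mul_smul a b p.1.1) rfl)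

instance : ContinuousSMul G (XSet G) := ⟨Continuous.subtype_mk
  ((continuous_fst.smul (continuous_fst.comp (continuous_subtype_val.comp continuous_snd))).prodMk
    (continuous_snd.comp (continuous_subtype_val.comp continuous_snd))) _⟩

/-- The universal compact metrizable space with an action of `G`. -/
def UX : GSp G where
  X := XSet G

variable {G}

theorem fst_smul (g : G) (p : (UX G).X) : (g • p).1 = (g • p.1.1, p.1.2) := rfl

theorem of_UX {BC : GSp G → Prop} (h : IsBC BC) (hU : BC (UX G)) (A : GSp G) : BC A := by
  classical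
  rcases isEmpty_or_nonempty A.X with hA | hA
  · let P : GSp G :=
      { X := PUnit
        act := { smul := fun _ x => x, one_smul := fun _ => rfl, mul_smul := fun _ _ _ => rfl }
        cont := ⟨continuous_snd⟩ }
    refine h.piece A P (fun _ => PUnit.unit) ?_ ?_ (fun _ x => (hA.false x).elim)
      (h.point P ⟨PUnit.unit⟩ ⟨fun _ _ => rfl⟩)
    · exact continuous_const.isClosedEmbedding (fun x => (hA.false x).elim)
    · exact .of_isEmpty _
  obtain ⟨Φ, hΦ, hΦe, hΦ0, hcl, -⟩ := exists_embedding G A.X
  let T : Set (U G) := insert U0 (range Φ)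
  have hT : ∀ (g : G) (φ : U G), φ ∈ T → g • φ ∈ T := by
    rintro g φ (rfl | ⟨x, rfl⟩)
    · exact Or.inl (smul_U0 g)
    · exact Or.inr ⟨g • x, hΦe g x⟩
  let S : Idx G → Bool := fun b => decide (Disjoint (b : Set (U G)) T)
  have hS : ∀ φ : U G, φ ∈ T → (φ, S) ∈ XSet G := by
    intro φ hφ g b hb hgb
    have hd : Disjoint (b : Set (U G)) T := of_decide_eq_true hb
    exact Set.disjoint_left.mp hd hgb (hT g φ hφ)
  have hS2 : ∀ φ : U G, (φ, S) ∈ XSet G → φ ∈ T := by
    intro φ hφ
    by_contra hn
    have hbas := TopologicalSpace.isBasis_countableBasis (U G)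
    obtain ⟨b, hb, hφb, hbT⟩ := hbas.exists_subset_of_mem_open (show φ ∈ Tᶜ from hn)
      hcl.isOpen_compl
    have hd : Disjoint b T := Set.disjoint_left.mpr fun x hx => hbT hx
    have := hφ 1 ⟨b, hb⟩ (decide_eq_true hd)
    rw [one_smul] at this
    exact this hφb
  obtain ⟨enc, henc⟩ := Countable.exists_injective_nat (Idx G)
  have hcS : ∀ b : Idx G, Continuous fun p : (UX G).X => p.1.2 b := fun b =>
    (continuous_apply b).comp (continuous_snd.comp continuous_subtype_val)
  -- the fibre over `S`
  let s : Set (UX G).X := {p | p.1.2 = S}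
  have hsc : IsClosed s := isClosed_eq (continuous_snd.comp continuous_subtype_val) continuous_const
  have hsi : ∀ (g : G) (p : (UX G).X), p ∈ s → g • p ∈ s := fun g p hp => hp
  let Y : GSp G := (UX G).sub s hsc hsi
  -- the clopen neighbourhoods of the fibre
  let z : ℕ → Set (UX G).X := fun n => ⋂ b ∈ {b : Idx G | enc b < n}, {p | p.1.2 b = S b}
  have hfin : ∀ n, {b : Idx G | enc b < n}.Finite := fun n =>
    Set.Finite.preimage henc.injOn (Set.finite_lt_nat n)
  have hzc : ∀ n, IsClopen (z n) := fun n => by
    refine (hfin n).isClopen_biInter fun b _ => ?_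
    exact (isClopen_discrete ({S b} : Set Bool)).preimage (hcS b)
  have hzi : ∀ n (g : G) (p : (UX G).X), p ∈ z n → g • p ∈ z n := fun n g p hp => by
    simp only [z, mem_iInter] at hp ⊢
    exact hp
  let Z : ℕ → GSp G := fun n => (UX G).sub (z n) (hzc n).1 (hzi n)
  have hBZ : ∀ n, BC (Z n) := fun n =>
    h.piece (Z n) (UX G) (fun x => x.1) (hzc n).1.isClosedEmbedding_subtypeVal
      (hzc n).2.isOpenEmbedding_subtypeVal (fun _ _ => rfl) hU
  have hBY : BC Y := by
    refine h.limit (UX G) Y Z (fun n x => x.1) (fun x => x.1)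
      (inferInstanceAs (CompactSpace (XSet G)))
      (fun n => (hzc n).1.isClosedEmbedding_subtypeVal) (fun n _ _ => rfl) ?_
      hsc.isClosedEmbedding_subtypeVal (fun _ _ => rfl) ?_ hBZ
    · intro m n hmn
      change range (Subtype.val : z n → (UX G).X) ≤ range (Subtype.val : z m → (UX G).X)
      rw [Subtype.range_coe, Subtype.range_coe]
      intro p hp
      simp only [z, mem_iInter, mem_ofPred_eq] at hp ⊢
      exact fun b hb => hp b (hb.trans_le hmn)
    · change range (Subtype.val : s → (UX G).X) =
        ⋂ n, range (Subtype.val : z n → (UX G).X)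
      simp only [Subtype.range_coe]
      ext p
      simp only [s, z, mem_iInter, mem_ofPred_eq]
      constructor
      · intro hp n b _
        rw [hp]
      · intro hp
        exact funext fun b => hp (enc b + 1) b (Nat.lt_succ_self _)
  -- the fixed point
  let c : (UX G).X := ⟨(U0, S), hS U0 (Or.inl rfl)⟩
  let y0 : Y.X := ⟨c, rfl⟩
  have hPi : ∀ (g : G) (p : Y.X), p ∈ ({y0} : Set Y.X) → g • p ∈ ({y0} : Set Y.X) := by
    rintro g p rfl
    refine Subtype.ext (Subtype.ext (Prod.ext ?_ rfl))
    exact smul_U0 g
  let P : GSp G := Y.sub {y0} isClosed_singleton hPi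
  have hBP : BC P := h.point P ⟨⟨y0, rfl⟩⟩ ⟨fun a b => Subtype.ext (a.2.trans b.2.symm)⟩
  let j : A.X → Y.X := fun x => ⟨⟨(Φ x, S), hS _ (Or.inr ⟨x, rfl⟩)⟩, rfl⟩
  have hjc : Continuous j := by
    refine Continuous.subtype_mk (Continuous.subtype_mk (hΦ.continuous.prodMk continuous_const) _) _
  have hje : IsEmbedding j := by
    refine IsEmbedding.of_comp hjc (g := fun y : Y.X => y.1.1.1) ?_ hΦ
    exact continuous_fst.comp (continuous_subtype_val.comp continuous_subtype_val)
  have hjr : range j = (range (fun x : P.X => x.1))ᶜ := by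
    ext y
    constructor
    · rintro ⟨x, rfl⟩ ⟨p, hp⟩
      have h1 : p.1 = y0 := p.2
      have h2 : (j x).1.1.1 = U0 := by
        rw [← hp]
        change p.1.1.1.1 = U0
        rw [h1]
      exact hΦ0 x h2
    · intro hy
      have h1 : y.1.1 = (y.1.1.1, S) := Prod.ext rfl y.2
      have h2 : y.1.1.1 ∈ T := hS2 _ (by rw [← h1]; exact y.1.2)
      rcases h2 with h2 | ⟨x, hx⟩
      · refine absurd ⟨⟨y, ?_⟩, rfl⟩ hy
        refine Subtype.ext (Subtype.ext ?_)
        rw [h1, h2]
      · refine ⟨x, Subtype.ext (Subtype.ext ?_)⟩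
        rw [h1, ← hx]
  have hjo : IsOpenEmbedding j := ⟨hje, by
    rw [hjr]
    change IsOpen (range (Subtype.val : ({y0} : Set Y.X) → Y.X))ᶜ
    rw [Subtype.range_coe]
    exact isClosed_singleton.isOpen_compl⟩
  refine (h.excision P Y A (fun x => x.1) j isClosed_singleton.isClosedEmbedding_subtypeVal hjo
    (fun _ _ => rfl) (fun g x => ?_) hjr).1 hBP hBY
  refine Subtype.ext (Subtype.ext (Prod.ext ?_ rfl))
  exact hΦe g x

end Pool.Agent.Q27.GS
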