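import Pool.Agent.Q27.GS.Final

/-!
# The groups `SL_n(ℝ)` and their closed subgroups
-/

namespace Pool.Agent.Q27.GS

open Topology Set Filter

/-- The group `SL_{n+2}(ℝ)`. -/
abbrev SLR (n : ℕ) : Type := Matrix.SpecialLinearGroup (Fin (n + 2)) ℝ

theorem isClosedEmbedding_coe (n : ℕ) :
    IsClosedEmbedding (fun A : SLR n => (A : Matrix (Fin (n + 2)) (Fin (n + 2)) ℝ)) :=
  Matrix.SpecialLinearGroup.isClosedEmbedding_val

instance (n : ℕ) : LocallyCompactSpace (SLR n) := by
  have : LocallyCompactSpace (Matrix (Fin (n + 2)) (Fin (n + 2)) ℝ) :=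
    inferInstanceAs (LocallyCompactSpace (Fin (n + 2) → Fin (n + 2) → ℝ))
  exact (isClosedEmbedding_coe n).locallyCompactSpace

instance (n : ℕ) : T2Space (SLR n) := (isClosedEmbedding_coe n).isEmbedding.t2Space

instance (n : ℕ) : SecondCountableTopology (SLR n) := by
  have : SecondCountableTopology (Matrix (Fin (n + 2)) (Fin (n + 2)) ℝ) :=
    inferInstanceAs (SecondCountableTopology (Fin (n + 2) → Fin (n + 2) → ℝ))
  exact (isClosedEmbedding_coe n).isEmbedding.secondCountableTopology

instance (n : ℕ) : NoncompactSpace (SLR n) := by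
  rw [← not_compactSpace_iff]
  intro h
  let f : SLR n → ℝ := fun A => A.1 0 1
  have hf : Continuous f :=
    (continuous_apply 1).comp ((continuous_apply 0).comp (isClosedEmbedding_coe n).continuous)
  have hs : range f = univ := by
    rw [eq_univ_iff_forall]
    intro c
    have hne : (0 : Fin (n + 2)) ≠ 1 := by simp
    refine ⟨⟨Matrix.transvection 0 1 c, Matrix.det_transvection_of_ne 0 1 hne c⟩, ?_⟩
    simp [f, Matrix.transvection]
  have hb := (isCompact_range hf).bddAbove
  rw [hs] at hb
  exact not_bddAbove_univ hb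

/-- The bijection of the index sets. -/
def eqv (n k : ℕ) : Fin (n + 2) ⊕ Fin k ≃ Fin (n + k + 2) :=
  finSumFinEquiv.trans (finCongr (by omega))

/-- The block embedding. -/
def blk (n k : ℕ) : SLR n →* SLR (n + k) where
  toFun A := ⟨Matrix.reindex (eqv n k) (eqv n k) (Matrix.fromBlocks A.1 0 0 1), by
    rw [Matrix.det_reindex_self, Matrix.det_fromBlocks_zero₂₁, Matrix.det_one, mul_one]
    exact A.2⟩
  map_one' := Subtype.ext (by
    change Matrix.reindex (eqv n k) (eqv n k) (Matrix.fromBlocks 1 0 0 1) = 1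
    rw [Matrix.fromBlocks_one]
    simp)
  map_mul' A B := Subtype.ext (by
    change Matrix.reindex (eqv n k) (eqv n k) (Matrix.fromBlocks (A.1 * B.1) 0 0 1) =
      Matrix.reindex (eqv n k) (eqv n k) (Matrix.fromBlocks A.1 0 0 1) *
        Matrix.reindex (eqv n k) (eqv n k) (Matrix.fromBlocks B.1 0 0 1)
    simp [Matrix.fromBlocks_multiply])

theorem isClosedEmbedding_blk (n k : ℕ) : IsClosedEmbedding (blk n k) := by
  let β : Matrix (Fin (n + 2)) (Fin (n + 2)) ℝ → Matrix (Fin (n + k + 2)) (Fin (n + k + 2)) ℝ :=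
    fun M => Matrix.reindex (eqv n k) (eqv n k) (Matrix.fromBlocks M 0 0 1)
  let r : Matrix (Fin (n + k + 2)) (Fin (n + k + 2)) ℝ → Matrix (Fin (n + 2)) (Fin (n + 2)) ℝ :=
    fun M => Matrix.of fun i j => M (eqv n k (Sum.inl i)) (eqv n k (Sum.inl j))
  have hr : Continuous r := by
    refine continuous_pi fun i => continuous_pi fun j => ?_
    exact (continuous_apply (eqv n k (Sum.inl j))).comp (continuous_apply (eqv n k (Sum.inl i)))
  have hβ : Continuous β :=
    (Continuous.matrix_fromBlocks continuous_id continuous_const continuous_const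
      continuous_const).matrix_reindex (eqv n k) (eqv n k)
  have hl : Function.LeftInverse r β := by
    intro M
    ext i j
    simp [r, β]
  have hβc : IsClosedEmbedding β := hl.isClosedEmbedding hr hβ
  have h1 : IsClosedEmbedding ((fun A : SLR (n + k) =>
      (A : Matrix (Fin (n + k + 2)) (Fin (n + k + 2)) ℝ)) ∘ blk n k) :=
    hβc.comp (isClosedEmbedding_coe n)
  exact ((isClosedEmbedding_coe (n + k)).of_comp_iff).mp h1

end Pool.Agent.Q27.GS
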