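import Mathlib

/-!
# Slowly varying functions on a locally compact group

On a non-compact locally compact second countable group `G` we construct a continuous function
`T : G → [0, 1]` and a map `a : G → X` to a `G`-space, locally constant where `T > 0`, such that
`T (h g) - T g → 0` as `g → ∞`, uniformly for `h` in compact sets, `a (h g) = a g` unless
`T (h g) = 0` or `T g = 0`, and the pairs `(g • a g, T g)` come near to given pairs `(x k, t k)`.
-/

namespace Pool.Agent.Q27.GS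

open Topology Set Filter
open scoped Pointwise

variable (G : Type) [Group G] [TopologicalSpace G] [IsTopologicalGroup G]
  [LocallyCompactSpace G] [T2Space G] [SecondCountableTopology G] [NoncompactSpace G]

theorem exists_exh : ∃ K : ℕ → Set G, (∀ n, IsCompact (K n)) ∧
    (∀ n, K n ⊆ interior (K (n + 1))) ∧ (∀ g, ∃ n, g ∈ K n) ∧
    (∀ n, ∀ a ∈ K n, ∀ b ∈ K n, a * b ∈ K (n + 1)) ∧ (∀ n, ∀ a ∈ K n, a⁻¹ ∈ K n) ∧
    (∀ n, ∃ g, g ∈ K (n + 1) ∧ g ∉ K n) := by
  classical
  let E := CompactExhaustion.choice G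
  obtain ⟨V, hV, hV1⟩ := exists_compact_mem_nhds (1 : G)
  let p : Set G → G := fun S => if h : ∃ x, x ∉ S then h.choose else 1
  have hp : ∀ S : Set G, IsCompact S → p S ∉ S := by
    intro S hS
    have h : ∃ x, x ∉ S := (Set.ne_univ_iff_exists_notMem S).mp hS.ne_univ
    simp only [p, dif_pos h]
    exact h.choose_spec
  let M : ℕ → Set G → Set G := fun n S => S ∪ E n ∪ (E n : Set G)⁻¹ ∪ {p S, (p S)⁻¹}
  let K : ℕ → Set G := fun n => Nat.rec (V ∪ V⁻¹) (fun n S => M n S * M n S) n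
  have hKs : ∀ n, K (n + 1) = M n (K n) * M n (K n) := fun n => rfl
  have hKc : ∀ n, IsCompact (K n) := by
    intro n
    induction n with
    | zero => exact hV.union hV.inv
    | succ n ih =>
      have hM : IsCompact (M n (K n)) :=
        ((ih.union (E.isCompact n)).union (E.isCompact n).inv).union
          ((Set.toFinite _).isCompact)
      rw [hKs]
      exact hM.mul hM
  have hKM : ∀ n, K n ⊆ M n (K n) := fun n x hx => Or.inl (Or.inl (Or.inl hx))
  have hinv : ∀ n, ∀ a ∈ K n, a⁻¹ ∈ K n := by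
    intro n
    induction n with
    | zero =>
      rintro a (ha | ha)
      · exact Or.inr (by simpa using ha)
      · exact Or.inl (by simpa using ha)
    | succ n ih =>
      have hMi : ∀ a ∈ M n (K n), a⁻¹ ∈ M n (K n) := by
        rintro a (((ha | ha) | ha) | ha)
        · exact Or.inl (Or.inl (Or.inl (ih a ha)))
        · exact Or.inl (Or.inr (by simpa using ha))
        · exact Or.inl (Or.inl (Or.inr (by simpa using ha)))
        · refine Or.inr ?_
          rcases ha with ha | ha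
          · rw [ha]; exact Or.inr rfl
          · rw [mem_singleton_iff] at ha
            rw [ha, inv_inv]; exact Or.inl rfl
      rintro _ ⟨a, ha, b, hb, rfl⟩
      exact ⟨b⁻¹, hMi b hb, a⁻¹, hMi a ha, by simp⟩
  have h1 : ∀ n, (1 : G) ∈ K n := by
    intro n
    induction n with
    | zero => exact Or.inl (mem_of_mem_nhds hV1)
    | succ n ih => exact ⟨1, hKM n ih, 1, hKM n ih, by simp⟩
  have hmul : ∀ n, ∀ a ∈ K n, ∀ b ∈ K n, a * b ∈ K (n + 1) := fun n a ha b hb =>
    ⟨a, hKM n ha, b, hKM n hb, rfl⟩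
  have hsub : ∀ n, K n ⊆ K (n + 1) := fun n a ha => by
    simpa using hmul n a ha 1 (h1 n)
  have hVK : ∀ n, V ⊆ K n := by
    intro n
    induction n with
    | zero => exact fun x hx => Or.inl hx
    | succ n ih => exact ih.trans (hsub n)
  refine ⟨K, hKc, fun n g hg => ?_, fun g => ?_, hmul, hinv, fun n => ?_⟩
  · rw [mem_interior_iff_mem_nhds]
    have h2 : (fun x => g⁻¹ * x) ⁻¹' V ∈ 𝓝 g := by
      have hc : Continuous fun x : G => g⁻¹ * x := continuous_const.mul continuous_id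
      refine hc.continuousAt.preimage_mem_nhds ?_
      simpa using hV1
    refine Filter.mem_of_superset h2 fun x hx => ?_
    have := hmul n g hg _ (hVK n hx)
    simpa using this
  · obtain ⟨n, hn⟩ := E.exists_mem g
    refine ⟨n + 1, g, Or.inl (Or.inl (Or.inr hn)), 1, hKM n (h1 n), by simp⟩
  · refine ⟨p (K n), ⟨p (K n), Or.inr (Or.inl rfl), 1, hKM n (h1 n), by simp⟩, hp _ (hKc n)⟩

/-- The wave: `A n = t k * min (n - k ^ 2) (2 k - (n - k ^ 2)) / k`, `k = sqrt n`. -/
noncomputable def wv (t : ℕ → ℝ) (n : ℕ) : ℝ :=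
  t n.sqrt * ((min (n - n.sqrt * n.sqrt) (2 * n.sqrt - (n - n.sqrt * n.sqrt)) : ℕ) : ℝ) / n.sqrt

theorem wv_block (t : ℕ → ℝ) (k r : ℕ) (hr : r ≤ 2 * k) :
    wv t (k * k + r) = t k * ((min r (2 * k - r) : ℕ) : ℝ) / k := by
  have h : (k * k + r).sqrt = k := Nat.sqrt_add_eq k (by omega)
  rw [wv, h, Nat.add_sub_cancel_left]

theorem exists_block (n : ℕ) : ∃ k r, n = k * k + r ∧ r ≤ 2 * k ∧ n.sqrt = k := by
  refine ⟨n.sqrt, n - n.sqrt * n.sqrt, ?_, ?_, rfl⟩
  · have := Nat.sqrt_le n; omega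
  · have := Nat.sqrt_le_add n; omega

theorem wv_bound {t : ℕ → ℝ} (ht : ∀ k, 0 ≤ t k ∧ t k ≤ 1) (n : ℕ) : 0 ≤ wv t n ∧ wv t n ≤ 1 := by
  obtain ⟨k, r, rfl, hr, -⟩ := exists_block n
  rw [wv_block t k r hr]
  refine ⟨div_nonneg (mul_nonneg (ht k).1 (Nat.cast_nonneg _)) (Nat.cast_nonneg _), ?_⟩
  refine div_le_one_of_le₀ ?_ (Nat.cast_nonneg _)
  have h1 : ((min r (2 * k - r) : ℕ) : ℝ) ≤ k := by
    exact_mod_cast (show min r (2 * k - r) ≤ k by omega)
  calc t k * ((min r (2 * k - r) : ℕ) : ℝ) ≤ 1 * k :=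
        mul_le_mul (ht k).2 h1 (Nat.cast_nonneg _) zero_le_one
    _ = k := one_mul _

theorem wv_step {t : ℕ → ℝ} (ht : ∀ k, 0 ≤ t k ∧ t k ≤ 1) (n : ℕ) :
    |wv t (n + 1) - wv t n| ≤ 1 / n.sqrt := by
  obtain ⟨k, r, rfl, hr, hk⟩ := exists_block n
  rw [hk]
  rcases Nat.lt_or_ge r (2 * k) with h | h
  · rw [add_assoc, wv_block t k (r + 1) (by omega), wv_block t k r hr, ← sub_div, ← mul_sub,
      abs_div, abs_mul, abs_of_nonneg (ht k).1, Nat.abs_cast]
    refine div_le_div_of_nonneg_right ?_ (Nat.cast_nonneg _)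
    have h1 : |((min (r + 1) (2 * k - (r + 1)) : ℕ) : ℝ) - ((min r (2 * k - r) : ℕ) : ℝ)| ≤ 1 := by
      have h2 : min (r + 1) (2 * k - (r + 1)) ≤ min r (2 * k - r) + 1 := by omega
      have h3 : min r (2 * k - r) ≤ min (r + 1) (2 * k - (r + 1)) + 1 := by omega
      have h2' : ((min (r + 1) (2 * k - (r + 1)) : ℕ) : ℝ) ≤ ((min r (2 * k - r) : ℕ) : ℝ) + 1 := by
        exact_mod_cast h2
      have h3' : ((min r (2 * k - r) : ℕ) : ℝ) ≤ ((min (r + 1) (2 * k - (r + 1)) : ℕ) : ℝ) + 1 := by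
        exact_mod_cast h3
      rw [abs_sub_le_iff]
      constructor <;> linarith
    calc t k * _ ≤ 1 * 1 := mul_le_mul (ht k).2 h1 (abs_nonneg _) zero_le_one
      _ = 1 := one_mul _
  · have hr' : r = 2 * k := by omega
    subst hr'
    have h1 : k * k + 2 * k + 1 = (k + 1) * (k + 1) + 0 := by ring
    rw [h1, wv_block t (k + 1) 0 (by omega), wv_block t k (2 * k) le_rfl]
    simp

theorem wv_zero (t : ℕ → ℝ) (k : ℕ) : wv t (k * k) = 0 := by
  have := wv_block t k 0 (by omega)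
  simpa using this

theorem wv_last (t : ℕ → ℝ) (k : ℕ) : wv t (k * k + 2 * k) = 0 := by
  have := wv_block t k (2 * k) le_rfl
  simpa using this

theorem wv_top (t : ℕ → ℝ) (k : ℕ) (hk : 0 < k) : wv t (k * k + k) = t k := by
  rw [wv_block t k k (by omega)]
  have : min k (2 * k - k) = k := by omega
  rw [this]
  have hk' : (k : ℝ) ≠ 0 := by positivity
  field_simp

end Pool.Agent.Q27.GS
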